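import Pool.Agent.Q295.PL.Stm

/-! Jobs DEC and JEN of project LC2. -/

set_option autoImplicit false

namespace Pool.Agent.Q38.L2

open Finset Equiv Matrix Q292.LC Q295.PL

theorem dec_step {d L : ℕ} {A B a b : ℝ} (hd : 2 ≤ d) (hL : 1 ≤ L) (hA : 2 ≤ A) (hB : 1 ≤ B)
    (hb1 : b ≤ 1) (hab : b ≤ a) (hbL : 4 * A / (L : ℝ) ^ d < b)
    (h : ∀ R : ℕ, 1 ≤ R → R ≤ L → b ≤ A / (R : ℝ) ^ d + B * (R : ℝ) ^ 2 * (a - b)) :
    1 / (32 * A * B) ≤ 1 / b - 1 / a := by
  have hL0 : (0 : ℝ) < L := by exact_mod_cast hL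
  have hA0 : 0 < A := by linarith
  have hB0 : 0 < B := by linarith
  have hb0 : 0 < b := lt_of_le_of_lt (by positivity) hbL
  have ha0 : 0 < a := lt_of_lt_of_le hb0 hab
  classical
  have hex : ∃ R : ℕ, 1 ≤ R ∧ A / (R : ℝ) ^ d ≤ b / 2 := by
    refine ⟨L, hL, ?_⟩
    have e : 4 * A / (L : ℝ) ^ d = 4 * (A / (L : ℝ) ^ d) := by ring
    rw [e] at hbL
    have : 0 ≤ A / (L : ℝ) ^ d := by positivity
    linarith
  obtain ⟨hR1, hR2⟩ := Nat.find_spec hex
  have hmin := fun m hm => Nat.find_min hex (m := m) hm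
  have hRL : Nat.find hex ≤ L := Nat.find_min' hex ⟨hL, by
    have e : 4 * A / (L : ℝ) ^ d = 4 * (A / (L : ℝ) ^ d) := by ring
    rw [e] at hbL
    have : 0 ≤ A / (L : ℝ) ^ d := by positivity
    linarith⟩
  obtain ⟨R, hR⟩ : ∃ R, R = Nat.find hex := ⟨_, rfl⟩
  rw [← hR] at hR1 hR2 hmin hRL
  have hR3 : 2 ≤ R := by
    by_contra hlt
    have : R = 1 := by omega
    rw [this] at hR2
    simp only [Nat.cast_one, one_pow, div_one] at hR2
    linarith
  have h4 : b / 2 < A / ((R - 1 : ℕ) : ℝ) ^ d := by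
    by_contra hcon
    exact hmin (R - 1) (by omega) ⟨by omega, not_lt.1 hcon⟩
  obtain ⟨S, rfl⟩ : ∃ S, R = S + 1 := ⟨R - 1, by omega⟩
  rw [Nat.add_sub_cancel] at h4
  have hS1 : 1 ≤ S := by omega
  have hS1r : (1 : ℝ) ≤ S := by exact_mod_cast hS1
  have h5 : (S : ℝ) ^ 2 * (b / 2) < A := by
    have h6 : (S : ℝ) ^ 2 ≤ (S : ℝ) ^ d := pow_le_pow_right₀ hS1r hd
    have h7 : 0 < (S : ℝ) ^ d := by positivity
    rw [lt_div_iff₀ h7] at h4
    nlinarith
  have h8 := h (S + 1) (by omega) hRL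
  have h9 : (((S + 1 : ℕ) : ℝ)) ^ 2 ≤ 4 * (S : ℝ) ^ 2 := by
    push_cast
    nlinarith
  have hab' : 0 ≤ a - b := by linarith
  have h10 : b / 2 ≤ B * (((S + 1 : ℕ) : ℝ)) ^ 2 * (a - b) := by linarith
  have h11 : B * (((S + 1 : ℕ) : ℝ)) ^ 2 * (a - b) ≤ B * (4 * (S : ℝ) ^ 2) * (a - b) := by
    gcongr
  have h12 : b * b ≤ 16 * A * B * (a - b) := by
    have h13 : b * (b / 2) ≤ b * (B * (4 * (S : ℝ) ^ 2) * (a - b)) :=
      mul_le_mul_of_nonneg_left (h10.trans h11) hb0.le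
    have h14 : b * (B * (4 * (S : ℝ) ^ 2) * (a - b)) = ((S : ℝ) ^ 2 * (b / 2)) * (8 * B * (a - b)) := by
      ring
    have h15 : ((S : ℝ) ^ 2 * (b / 2)) * (8 * B * (a - b)) ≤ A * (8 * B * (a - b)) :=
      mul_le_mul_of_nonneg_right h5.le (by positivity)
    nlinarith
  have hAB : 0 < 32 * A * B := by positivity
  have e1 : 1 / b - 1 / a = (a - b) / (b * a) := by field_simp
  rw [e1, div_le_div_iff₀ hAB (by positivity)]
  rcases le_or_gt (a / 2) b with h16 | h16
  · nlinarith [mul_nonneg hb0.le (by linarith : 0 ≤ 2 * b - a)]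
  · have h17 : b ≤ 1 := hb1
    have hAB1 : 1 ≤ A * B := by nlinarith
    have h18 : b * a ≤ 1 * a := mul_le_mul_of_nonneg_right h17 ha0.le
    have h19 : a ≤ 2 * (a - b) := by linarith
    nlinarith [mul_nonneg (by linarith : 0 ≤ A * B - 1) hab']

/-- **DEC** -/
theorem dec : S_DEC := by
  intro d L n A B a hd hL hA hB hn ha h0 hmono h
  rcases le_or_gt (a n) (4 * A / (L : ℝ) ^ d) with h1 | h1
  · exact h1.trans (le_max_right _ _)
  refine le_trans ?_ (le_max_left _ _)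
  have hL0 : (0 : ℝ) < L := by exact_mod_cast hL
  have hA0 : 0 < A := by linarith
  have hB0 : 0 < B := by linarith
  have hdown : ∀ k ≤ n, a n ≤ a (n - k) := by
    intro k
    induction k with
    | zero => intro _; exact le_rfl
    | succ k ih =>
      intro hk
      refine (ih (by omega)).trans ?_
      have e : n - k = (n - (k + 1)) + 1 := by omega
      rw [e]
      exact hmono _ (by omega)
  have han : ∀ j ≤ n, a n ≤ a j := by
    intro j hj
    have := hdown (n - j) (by omega)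
    rwa [show n - (n - j) = j by omega] at this
  have hup : ∀ j ≤ n, a j ≤ 1 := by
    intro j
    induction j with
    | zero => intro _; exact h0
    | succ j ih =>
      intro hj
      exact (hmono j (by omega)).trans (ih (by omega))
  have hpos : ∀ j ≤ n, 0 < a j := fun j hj =>
    lt_of_lt_of_le (lt_of_le_of_lt (by positivity) h1) (han j hj)
  have hsum : ∀ j ≤ n, (j : ℝ) * (1 / (32 * A * B)) ≤ 1 / a j := by
    intro j
    induction j with
    | zero =>
      intro _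
      rw [Nat.cast_zero, zero_mul]
      exact (one_div_pos.2 (hpos 0 (by omega))).le
    | succ j ih =>
      intro hj
      have h2 := dec_step hd hL hA hB (hup (j + 1) hj) (hmono j (by omega))
        (lt_of_lt_of_le h1 (han (j + 1) hj)) (h j (by omega))
      have h3 := ih (by omega)
      push_cast
      linarith
  have h4 := hsum n le_rfl
  have hn0 : (0 : ℝ) < n := by exact_mod_cast hn
  have hp := hpos n le_rfl
  rw [mul_one_div, div_le_div_iff₀ (by positivity) hp] at h4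
  rw [le_div_iff₀ hn0]
  linarith

/-- **JEN** -/
theorem jen : S_JEN := by
  intro V _ _ T F h0 hrow hcol
  refine ⟨?_, fun x B hB => ?_⟩
  · have h1 : ∀ x, ∑ z, T x z * (F z - (T *ᵥ F) x) ^ 2 =
        ∑ z, T x z * (F z) ^ 2 - ((T *ᵥ F) x) ^ 2 := by
      intro x
      have h2 : ∑ z, T x z * (F z - (T *ᵥ F) x) ^ 2 = ∑ z, T x z * (F z) ^ 2 -
          2 * (T *ᵥ F) x * ∑ z, T x z * F z + ((T *ᵥ F) x) ^ 2 * ∑ z, T x z := by
        rw [mul_sum, mul_sum, ← sum_sub_distrib, ← sum_add_distrib]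
        exact sum_congr rfl fun z _ => by ring
      have h3 : ∑ z, T x z * F z = (T *ᵥ F) x := rfl
      rw [h2, h3, hrow]
      ring
    simp only [h1]
    rw [sum_sub_distrib, sum_comm]
    congr 1
    refine sum_congr rfl fun z _ => ?_
    rw [← sum_mul, hcol, one_mul]
  · set g := (T *ᵥ F) x with hg
    set M := ∑ z ∈ B, T x z with hM
    have hM0 : 0 < M := by linarith
    have h1 : (∑ z ∈ B, T x z * F z) / M - g = (∑ z ∈ B, T x z * (F z - g)) / M := by
      have h2 : ∑ z ∈ B, T x z * (F z - g) = ∑ z ∈ B, T x z * F z - M * g := by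
        rw [hM, sum_mul, ← sum_sub_distrib]
        exact sum_congr rfl fun z _ => by ring
      rw [h2]
      field_simp
    rw [h1, div_pow, div_le_iff₀ (by positivity)]
    have h3 : (∑ z ∈ B, T x z * (F z - g)) ^ 2 ≤ M * ∑ z ∈ B, T x z * (F z - g) ^ 2 := by
      refine Finset.sum_sq_le_sum_mul_sum_of_sq_le_mul B (fun z _ => h0 x z)
        (fun z _ => mul_nonneg (h0 x z) (sq_nonneg _)) fun z _ => le_of_eq (by ring)
    have h4 : ∑ z ∈ B, T x z * (F z - g) ^ 2 ≤ ∑ z, T x z * (F z - g) ^ 2 :=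
      sum_le_univ_sum_of_nonneg fun z => mul_nonneg (h0 x z) (sq_nonneg _)
    have h5 : 0 ≤ ∑ z, T x z * (F z - g) ^ 2 :=
      sum_nonneg fun z _ => mul_nonneg (h0 x z) (sq_nonneg _)
    calc (∑ z ∈ B, T x z * (F z - g)) ^ 2 ≤ M * ∑ z ∈ B, T x z * (F z - g) ^ 2 := h3
      _ ≤ M * ∑ z, T x z * (F z - g) ^ 2 := mul_le_mul_of_nonneg_left h4 hM0.le
      _ ≤ 2 * (∑ z, T x z * (F z - g) ^ 2) * M ^ 2 := by nlinarith [mul_nonneg hM0.le h5]

end Pool.Agent.Q38.L2
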