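import Pool.Agent.Q295.PL.Stm
import Pool.Agent.Q257.LC.Geo

/-! Jobs EXT and WIR of project LC2. -/

set_option autoImplicit false

namespace Pool.Agent.Q38.L2

open Finset Equiv Matrix Q292.LC Q295.PL
open Pool.Agent.Q257.LC (td_comm td_self td_tri mem_bal bal_mono natAbs_le_val)

/-- the site `x + j e_0` -/
def mv {d L : ℕ} (i : Fin d) (x : Fin d → ZMod L) (j : ℕ) : Fin d → ZMod L :=
  Function.update x i (x i + j)

theorem td_mv {d L : ℕ} [NeZero L] (i : Fin d) (x : Fin d → ZMod L) (j : ℕ) :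
    td x (mv i x j) ≤ j := by
  unfold td mv
  rw [Finset.sum_eq_single i]
  · rw [Function.update_self, sub_add_cancel_left, ZMod.natAbs_valMinAbs_neg]
    refine (natAbs_le_val _).trans ?_
    rw [ZMod.val_natCast]
    exact Nat.mod_le _ _
  · intro k _ hk
    rw [Function.update_of_ne hk, sub_self]
    simp
  · intro h
    exact absurd (mem_univ i) h

theorem mv_inj {d L : ℕ} [NeZero L] (i : Fin d) (x : Fin d → ZMod L) {j k : ℕ} (hj : j < L)
    (hk : k < L) (h : mv i x j = mv i x k) : j = k := by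
  have h1 := congrFun h i
  unfold mv at h1
  rw [Function.update_self, Function.update_self] at h1
  have h2 : ((j : ℕ) : ZMod L) = k := add_left_cancel h1
  have h3 := congrArg ZMod.val h2
  rwa [ZMod.val_natCast, ZMod.val_natCast, Nat.mod_eq_of_lt hj, Nat.mod_eq_of_lt hk] at h3

/-- **EXT** -/
theorem ext : S_EXT := by
  intro d L _ hd A m hm hA
  have key : ∀ x : Fin d → ZMod L, ∃ y : Fin d → ZMod L, y ∉ A ∧ td x y ≤ m ∧ (x ∉ A → y = x) := by
    intro x
    by_cases hx : x ∈ A
    · let i : Fin d := ⟨0, hd⟩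
      have h1 : ∃ j ∈ Finset.range (m + 1), mv i x j ∉ A := by
        by_contra hcon
        push Not at hcon
        have h2 : (Finset.range (m + 1)).image (mv i x) ⊆ A ∩ bal x m := by
          intro y hy
          obtain ⟨j, hj, rfl⟩ := mem_image.1 hy
          refine mem_inter.2 ⟨hcon j hj, (mem_bal _ _ _).2 ((td_mv i x j).trans ?_)⟩
          have := mem_range.1 hj
          omega
        have h3 := (card_le_card h2).trans (hA x)
        rw [card_image_of_injOn, card_range] at h3
        · omega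
        · intro j hj k hk hjk
          have h4 := mem_range.1 (mem_coe.1 hj)
          have h5 := mem_range.1 (mem_coe.1 hk)
          exact mv_inj i x (by omega) (by omega) hjk
      obtain ⟨j, hj, hjA⟩ := h1
      have := mem_range.1 hj
      exact ⟨mv i x j, hjA, (td_mv i x j).trans (by omega), fun h => absurd hx h⟩
    · exact ⟨x, hx, by rw [td_self]; exact Nat.zero_le _, fun _ => rfl⟩
  choose y hy using key
  exact ⟨y, hy⟩

/-- **WIR** -/
theorem wir (hREV : S_REV) (hWIN : S_WIN) : S_WIR := by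
  intro d hd
  obtain ⟨C, hC, hwin⟩ := hWIN d hd
  refine ⟨C, hC, ?_⟩
  intro L _ hL σ hσ ω A δ q u lam r ρ κ₀ R y f hδ hCδ h1 h2 hu hE h4 h5 h6 h7 hy
  obtain ⟨hσr, hEr, hT⟩ := hREV d L (by omega) hL σ hσ q u lam r ρ κ₀ ω A δ
  have h8 := hwin L hL (rvs σ) hσr (rvo (u * (q * ms d L)) ω)
    (A.image (gp (ed ∘ σ) ω (u * (q * ms d L)))) δ q u lam r ρ κ₀ R y f hδ hCδ h1 h2 hu (hEr hE)
    h4 h5 h6 h7 hy
  rw [hT, Matrix.mulVec_transpose] at h8
  exact h8

end Pool.Agent.Q38.L2
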