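import Pool.Agent.Q38.L2.Dec
import Pool.Agent.Q38.L2.Ext
import Pool.Agent.Q257.LC.LapC
import Pool.Agent.Q257.LC.KerA
import Pool.Agent.Q68.LC.Bas2
import Pool.Agent.Q277.LC.Sub

/-! Jobs LPT and LPM of project LC2: decay of the square norm. -/

set_option autoImplicit false

namespace Pool.Agent.Q38.L2

open Finset Equiv Matrix Q292.LC Q295.PL
open Pool.Agent.Q257.LC (Aj fj fj_nonneg fj_sum fj_zero fj_add fj_mono sum_vecMul_sq_le sum_vecMul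
  vecMul_nonneg bal_mono pow_right)

/-- body of WIR -/
def WIRb (d C : ℕ) : Prop := ∀ (L : ℕ) [NeZero L], 3 ≤ L →
  ∀ σ : ℕ → (Fin d → ZMod L) × Fin d, Per σ → ∀ (ω : ℕ → Bool) (A : Finset (Fin d → ZMod L))
  (δ : ℝ) (q u lam r ρ κ₀ R : ℕ) (y : (Fin d → ZMod L) → (Fin d → ZMod L))
  (f : (Fin d → ZMod L) → ℝ), 0 < δ → C * δ ≤ 1 → 1 ≤ δ * q → δ * q ≤ 2 → 1 ≤ u →
  Ev σ q u lam r ρ κ₀ ω A → 4 * lam ^ 2 * κ₀ ≤ u → 4 * lam * ρ ≤ q →
  C * (lam + 1) * (ρ + 1) * u ≤ R → 4 * R ≤ r →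
  Ex (A.image (gp (ed ∘ σ) ω (u * (q * ms d L)))) lam y →
  gE (fun x => (vecMul f (TT (ed ∘ σ) ω A δ (u * (q * ms d L)))) (y x)) ≤
    C * (R : ℝ) ^ (d + 1) * (∑ x, (f x) ^ 2 -
      ∑ x, ((vecMul f (TT (ed ∘ σ) ω A δ (u * (q * ms d L)))) x) ^ 2)

theorem win_step {d : ℕ} (hd : 2 ≤ d) {C : ℕ} (hW : WIRb d C) (hNSH : S_NSH)
    {L : ℕ} [NeZero L] (hL : 3 ≤ L) {σ : ℕ → (Fin d → ZMod L) × Fin d} (hσ : Per σ)
    {q u lam r ρ κ₀ R Z : ℕ} {δ : ℝ} (hδ : 0 < δ) (hδ1 : δ ≤ 1) (hCδ : C * δ ≤ 1)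
    (h1 : 1 ≤ δ * q) (h2 : δ * q ≤ 2) (hu : 1 ≤ u) (hlam : lam ≤ Z) (hlamr : lam ≤ r)
    (hlamL : lam < L) (h4 : 4 * lam ^ 2 * κ₀ ≤ u) (h5 : 4 * lam * ρ ≤ q)
    (h6 : C * (lam + 1) * (ρ + 1) * u ≤ R) (h7 : 4 * R ≤ r) (ω : ℕ → Bool)
    (A : Finset (Fin d → ZMod L)) (hE : Ev σ q u lam r ρ κ₀ ω A)
    (f : (Fin d → ZMod L) → ℝ) (hf0 : ∀ x, 0 ≤ f x) (hfA : ∀ x ∈ A, f x = 0)
    (hf1 : ∑ x, f x ≤ 1) (S : ℕ) (hS1 : 1 ≤ S) (hSL : S ≤ L) :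
    ∑ x, (vecMul f (TT (ed ∘ σ) ω A δ (u * (q * ms d L))) x) ^ 2 ≤
      ((2 * (2 * Z + 1) ^ (2 * d) : ℕ) : ℝ) / (S : ℝ) ^ d +
      ((2 * d ^ 2 * (C * R ^ (d + 1)) : ℕ) : ℝ) * (S : ℝ) ^ 2 * (∑ x, (f x) ^ 2 -
        ∑ x, (vecMul f (TT (ed ∘ σ) ω A δ (u * (q * ms d L))) x) ^ 2) := by
  have hB := Pool.Agent.Q68.LC.bas2 _ (ed ∘ σ) ω A δ hδ.le hδ1
  obtain ⟨y, hy⟩ := ext d L (by omega) (A.image (gp (ed ∘ σ) ω (u * (q * ms d L)))) lam hlamL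
    fun v => (card_le_card (inter_subset_inter_left (bal_mono v hlamr))).trans (hE.1 u le_rfl v)
  have hG := hW L hL σ hσ ω A δ q u lam r ρ κ₀ R y f hδ hCδ h1 h2 hu hE h4 h5 h6 h7 hy
  obtain ⟨g, hg⟩ : ∃ g, g = vecMul f (TT (ed ∘ σ) ω A δ (u * (q * ms d L))) := ⟨_, rfl⟩
  have hg0 : ∀ x, 0 ≤ g x := by
    rw [hg]
    exact vecMul_nonneg _ _ (hB.1 _) hf0
  have hgA : ∀ x ∈ A.image (gp (ed ∘ σ) ω (u * (q * ms d L))), g x = 0 := by
    intro x hx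
    rw [hg]
    refine sum_eq_zero fun y _ => ?_
    by_cases hy : y ∈ A
    · rw [hfA y hy, zero_mul]
    · beta_reduce
      rw [hB.2.2.2.2.1 _ y hy x hx, mul_zero]
  have hgs : ∑ x, g x ≤ 1 := by
    rw [hg, sum_vecMul _ _ (hB.2.1 _)]
    exact hf1
  have hgs0 : 0 ≤ ∑ x, g x := sum_nonneg fun x _ => hg0 x
  have hN := hNSH d L (by omega) hL (A.image (gp (ed ∘ σ) ω (u * (q * ms d L)))) lam S y g hS1 hSL
    hg0 hgA hy
  rw [← hg] at hG ⊢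
  have hS0 : (0 : ℝ) < S := by exact_mod_cast hS1
  have h8 : (∑ x, g x) ^ 2 ≤ 1 := by nlinarith
  have h9 : 2 * ((2 * lam + 1 : ℕ) : ℝ) ^ (2 * d) / (S : ℝ) ^ d * (∑ x, g x) ^ 2 ≤
      ((2 * (2 * Z + 1) ^ (2 * d) : ℕ) : ℝ) / (S : ℝ) ^ d := by
    have h10 : ((2 * lam + 1 : ℕ) : ℝ) ^ (2 * d) ≤ ((2 * Z + 1 : ℕ) : ℝ) ^ (2 * d) := by
      refine pow_le_pow_left₀ (Nat.cast_nonneg _) ?_ _
      exact_mod_cast (by omega : 2 * lam + 1 ≤ 2 * Z + 1)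
    have h11 : 2 * ((2 * lam + 1 : ℕ) : ℝ) ^ (2 * d) / (S : ℝ) ^ d ≤
        ((2 * (2 * Z + 1) ^ (2 * d) : ℕ) : ℝ) / (S : ℝ) ^ d := by
      refine div_le_div_of_nonneg_right ?_ (by positivity)
      push_cast at h10 ⊢
      linarith
    refine le_trans ?_ h11
    have h12 : 0 ≤ 2 * ((2 * lam + 1 : ℕ) : ℝ) ^ (2 * d) / (S : ℝ) ^ d := by positivity
    nlinarith
  have h13 : 2 * ((d : ℝ) * S) ^ 2 * gE (fun x => g (y x)) ≤
      2 * ((d : ℝ) * S) ^ 2 * (C * (R : ℝ) ^ (d + 1) * (∑ x, (f x) ^ 2 - ∑ x, (g x) ^ 2)) :=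
    mul_le_mul_of_nonneg_left hG (by positivity)
  refine hN.trans ?_
  rw [add_comm]
  refine add_le_add h9 (h13.trans (le_of_eq ?_))
  push_cast
  ring

/-- many laps of `J` windows -/
theorem multi {d L J : ℕ} {A B : ℝ} (hd : 2 ≤ d) (hL : 1 ≤ L) (hA : 2 ≤ A) (hB : 1 ≤ B)
    (hJ : 1 ≤ J) (n : ℕ → ℕ → ℝ) (hnn : ∀ k j, 0 ≤ n k j) (h0 : n 0 0 ≤ 1)
    (hmono : ∀ k, ∀ j < J, n k (j + 1) ≤ n k j) (hlap : ∀ k, n (k + 1) 0 ≤ n k J)
    (hstep : ∀ k, ∀ j < J, ∀ S : ℕ, 1 ≤ S → S ≤ L →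
      n k (j + 1) ≤ A / (S : ℝ) ^ d + B * (S : ℝ) ^ 2 * (n k j - n k (j + 1))) (k : ℕ) :
    n k J ≤ max (32 * A * B / (((k + 1) * J : ℕ) : ℝ)) (4 * A / (L : ℝ) ^ d) := by
  obtain ⟨a, ha⟩ : ∃ a : ℕ → ℝ, a = fun i => if i < (k + 1) * J then n (i / J) (i % J) else n k J :=
    ⟨_, rfl⟩
  have key : ∀ j < (k + 1) * J, a j = n (j / J) (j % J) ∧ j % J < J ∧
      a (j + 1) ≤ n (j / J) (j % J + 1) := by
    intro j hj
    have h1 : j % J < J := Nat.mod_lt _ hJ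
    refine ⟨by rw [ha]; beta_reduce; rw [if_pos hj], h1, ?_⟩
    have h2 := Nat.div_add_mod j J
    rw [ha]
    beta_reduce
    by_cases h3 : j + 1 < (k + 1) * J
    · rw [if_pos h3]
      by_cases h4 : j % J + 1 < J
      · have e1 : j + 1 = (j % J + 1) + J * (j / J) := by omega
        have e2 : (j + 1) / J = j / J := by
          rw [e1, Nat.add_mul_div_left _ _ hJ, Nat.div_eq_of_lt h4, zero_add]
        have e3 : (j + 1) % J = j % J + 1 := by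
          conv_lhs => rw [e1]
          rw [Nat.add_mul_mod_self_left, Nat.mod_eq_of_lt h4]
        rw [e2, e3]
      · have e0 : j % J + 1 = J := by omega
        have e1 : j + 1 = J * (j / J + 1) := by
          rw [mul_add, mul_one]
          omega
        have e2 : (j + 1) / J = j / J + 1 := by
          rw [e1, Nat.mul_div_cancel_left _ hJ]
        have e3 : (j + 1) % J = 0 := by
          rw [e1, Nat.mul_mod_right]
        rw [e2, e3, e0]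
        exact hlap _
    · rw [if_neg h3]
      have h5 : j + 1 = (k + 1) * J := by omega
      have h6 : j / J = k := by
        rw [Nat.div_eq_of_lt_le]
        · have : (k + 1) * J = k * J + J := by ring
          omega
        · exact hj
      have h7 : j % J + 1 = J := by
        rw [h6] at h2
        have e4 : (k + 1) * J = J * k + J := by ring
        omega
      rw [h6, h7]
  have h1 : n k J = a ((k + 1) * J) := by
    rw [ha]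
    beta_reduce
    rw [if_neg (lt_irrefl _)]
  have hpos : 1 ≤ (k + 1) * J := Nat.mul_pos (Nat.succ_pos k) hJ
  rw [h1]
  refine dec d L ((k + 1) * J) A B a hd hL hA hB hpos ?_ ?_ ?_ ?_
  · intro j
    rw [ha]
    beta_reduce
    split_ifs
    · exact hnn _ _
    · exact hnn _ _
  · obtain ⟨h2, -, -⟩ := key 0 hpos
    rw [h2, Nat.zero_div, Nat.zero_mod]
    exact h0
  · intro j hj
    obtain ⟨h2, h3, h4⟩ := key j hj
    rw [h2]
    exact h4.trans (hmono _ _ h3)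
  · intro j hj S hS1 hSL
    obtain ⟨h2, h3, h4⟩ := key j hj
    rw [h2]
    have h5 := hstep (j / J) (j % J) h3 S hS1 hSL
    refine h4.trans (h5.trans ?_)
    have h6 : 0 ≤ B * (S : ℝ) ^ 2 := by positivity
    have h7 := mul_le_mul_of_nonneg_left h4 h6
    linarith

theorem numb (d C Z : ℕ) (hC : C ≤ Z) (hd : d ^ 2 ≤ Z) (h3 : 3 ≤ Z) :
    64 * (2 * (2 * Z + 1) ^ (2 * d)) * (2 * d ^ 2 * (C * (C * (Z + 1) ^ 2 * (4 * Z ^ 3)) ^ (d + 1))) *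
      (4 * Z ^ 3) ≤ Z ^ (14 * d + 25) ∧ 4 * (2 * (2 * Z + 1) ^ (2 * d)) ≤ Z ^ (14 * d + 25) ∧
    4 * (C * (Z + 1) ^ 2 * (4 * Z ^ 3)) ≤ Z ^ (14 * d + 25) ∧ 4 * Z ^ 3 ≤ Z ^ (14 * d + 25) ∧
    Z ≤ Z ^ (14 * d + 25) := by
  have hZ1 : 1 ≤ Z := by omega
  have h16 : 16 ≤ Z ^ 4 := (by norm_num : 16 ≤ 3 ^ 4).trans (Nat.pow_le_pow_left h3 4)
  have h4' : 4 ≤ Z ^ 2 := (by norm_num : 4 ≤ 3 ^ 2).trans (Nat.pow_le_pow_left h3 2)
  have h1024 : 1024 ≤ Z ^ 10 := (by norm_num : 1024 ≤ 3 ^ 10).trans (Nat.pow_le_pow_left h3 10)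
  have hR : C * (Z + 1) ^ 2 * (4 * Z ^ 3) ≤ Z ^ 10 := by
    have h1 : (Z + 1) ^ 2 ≤ (2 * Z) ^ 2 := Nat.pow_le_pow_left (by omega) 2
    calc C * (Z + 1) ^ 2 * (4 * Z ^ 3) ≤ Z * (2 * Z) ^ 2 * (4 * Z ^ 3) := by gcongr
      _ = 16 * Z ^ 6 := by ring
      _ ≤ Z ^ 4 * Z ^ 6 := by gcongr
      _ = Z ^ 10 := by ring
  have hA : (2 * Z + 1) ^ (2 * d) ≤ Z ^ (4 * d) := by
    have h1 : 2 * Z + 1 ≤ Z ^ 2 := by nlinarith
    calc (2 * Z + 1) ^ (2 * d) ≤ (Z ^ 2) ^ (2 * d) := Nat.pow_le_pow_left h1 _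
      _ = Z ^ (4 * d) := by rw [← pow_mul]; congr 1; ring
  have hmon : ∀ k, k ≤ 14 * d + 25 → Z ^ k ≤ Z ^ (14 * d + 25) := fun k hk =>
    Nat.pow_le_pow_right hZ1 hk
  refine ⟨?_, ?_, ?_, ?_, ?_⟩
  · calc 64 * (2 * (2 * Z + 1) ^ (2 * d)) *
          (2 * d ^ 2 * (C * (C * (Z + 1) ^ 2 * (4 * Z ^ 3)) ^ (d + 1))) * (4 * Z ^ 3)
        ≤ 64 * (2 * Z ^ (4 * d)) * (2 * Z * (Z * (Z ^ 10) ^ (d + 1))) * (4 * Z ^ 3) := by gcongr
      _ = 1024 * Z ^ (14 * d + 15) := by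
        rw [← pow_mul]
        ring
      _ ≤ Z ^ 10 * Z ^ (14 * d + 15) := by gcongr
      _ = Z ^ (14 * d + 25) := by rw [← pow_add]; congr 1; ring
  · calc 4 * (2 * (2 * Z + 1) ^ (2 * d)) ≤ 4 * (2 * Z ^ (4 * d)) := by gcongr
      _ = 8 * Z ^ (4 * d) := by ring
      _ ≤ Z ^ 4 * Z ^ (4 * d) := Nat.mul_le_mul_right _ (by omega)
      _ = Z ^ (4 + 4 * d) := by rw [← pow_add]
      _ ≤ _ := hmon _ (by omega)
  · calc 4 * (C * (Z + 1) ^ 2 * (4 * Z ^ 3)) ≤ Z ^ 2 * Z ^ 10 := by gcongr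
      _ = Z ^ 12 := by ring
      _ ≤ _ := hmon _ (by omega)
  · calc 4 * Z ^ 3 ≤ Z ^ 2 * Z ^ 3 := by gcongr
      _ = Z ^ 5 := by ring
      _ ≤ _ := hmon _ (by omega)
  · calc Z = Z ^ 1 := (pow_one Z).symm
      _ ≤ _ := hmon _ (by omega)

theorem fin_bound {A B W : ℝ} {d L u J K k : ℕ} (hL : 1 ≤ L) (hA : 0 ≤ A) (hB : 0 ≤ B)
    (hJ : 1 ≤ J) (hK : 1 ≤ K) (hKJ : K ≤ 2 * (J * u)) (hW1 : 64 * A * B * u ≤ W)
    (hW2 : 4 * A ≤ W) :
    max (32 * A * B / (((k + 1) * J : ℕ) : ℝ)) (4 * A / (L : ℝ) ^ d) ≤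
      W * (1 / (((k + 1 : ℕ) : ℝ) * K) + 1 / (L : ℝ) ^ d) := by
  have hL0 : (0 : ℝ) < L := by exact_mod_cast hL
  have hJ0 : (0 : ℝ) < J := by exact_mod_cast hJ
  have hK0 : (0 : ℝ) < K := by exact_mod_cast hK
  have hk0 : (0 : ℝ) < ((k + 1 : ℕ) : ℝ) := by exact_mod_cast Nat.succ_pos k
  have hW0 : 0 ≤ W := (by positivity : (0 : ℝ) ≤ 4 * A).trans hW2
  have h1 : 0 ≤ W * (1 / (((k + 1 : ℕ) : ℝ) * K)) := by positivity
  have h2 : 0 ≤ W * (1 / (L : ℝ) ^ d) := by positivity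
  rw [mul_add]
  refine max_le ?_ ?_
  · refine le_trans ?_ (le_add_of_nonneg_right h2)
    rw [mul_one_div, div_le_div_iff₀ (by rw [Nat.cast_mul]; positivity) (by positivity)]
    have h3 : (K : ℝ) ≤ 2 * (J * u) := by exact_mod_cast hKJ
    have h4 : 32 * A * B * K ≤ W * J := by
      calc 32 * A * B * K ≤ 32 * A * B * (2 * (J * u)) := by gcongr
        _ = (64 * A * B * u) * J := by ring
        _ ≤ W * J := by gcongr
    calc 32 * A * B * (((k + 1 : ℕ) : ℝ) * K) = ((k + 1 : ℕ) : ℝ) * (32 * A * B * K) := by ring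
      _ ≤ ((k + 1 : ℕ) : ℝ) * (W * J) := by gcongr
      _ = W * (((k + 1) * J : ℕ) : ℝ) := by
        push_cast
        ring
  · refine le_trans ?_ (le_add_of_nonneg_left h1)
    rw [mul_one_div]
    exact div_le_div_of_nonneg_right hW2 (by positivity)

/-- the general theorem: laps with killing in between -/
theorem laps {d : ℕ} (hd : 2 ≤ d) {C : ℕ} (hC : 1 ≤ C) (hW : WIRb d C) (hNSH : S_NSH) {Z : ℕ}
    (hZC : C ≤ Z) (hZd : d ^ 2 ≤ Z) (hZ3 : 3 ≤ Z) {L K lam r ρ κ₀ : ℕ} [NeZero L]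
    (hlam : lam ≤ Z) (hρ : ρ ≤ Z) (hκ : κ₀ ≤ Z) (hr : Z ^ (14 * d + 25) ≤ r)
    (hL : 8 * Z ^ (14 * d + 25) ≤ L) (hK : Z ^ (14 * d + 25) ≤ K)
    {q : ℕ} (hq : 4 * Z ^ 2 + 2 * C + 2 ≤ q) {σ : ℕ → (Fin d → ZMod L) × Fin d} (hσ : Per σ)
    {δ : ℝ} (h1 : 1 ≤ δ * q) (h2 : δ * q ≤ 2) {ω : ℕ → Bool} {A : Finset (Fin d → ZMod L)}
    (hE : Ev σ q K lam r ρ κ₀ ω A) (s : ℕ → (Fin d → ZMod L) → ℝ) (hs0 : ∀ k x, 0 ≤ s k x)
    (hsA : ∀ k, ∀ x ∈ A, s k x = 0) (hs1 : ∀ k, ∑ x, s k x ≤ 1) (hs2 : ∑ x, (s 0 x) ^ 2 ≤ 1)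
    (hs3 : ∀ k, ∑ x, (s (k + 1) x) ^ 2 ≤
      ∑ x, (vecMul (s k) (TT (ed ∘ σ) ω A δ (K * (q * ms d L))) x) ^ 2) (k : ℕ) :
    ∑ x, (vecMul (s k) (TT (ed ∘ σ) ω A δ (K * (q * ms d L))) x) ^ 2 ≤
      (Z : ℝ) ^ (14 * d + 25) * (1 / (((k + 1 : ℕ) : ℝ) * K) + 1 / (L : ℝ) ^ d) := by
  obtain ⟨n1, n2, n3, n4, n5⟩ := numb d C Z hZC hZd hZ3
  obtain ⟨u, hu⟩ : ∃ u, u = 4 * Z ^ 3 := ⟨_, rfl⟩
  obtain ⟨R, hR⟩ : ∃ R, R = C * (Z + 1) ^ 2 * u := ⟨_, rfl⟩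
  obtain ⟨W, hWW⟩ : ∃ W, W = Z ^ (14 * d + 25) := ⟨_, rfl⟩
  rw [← hu, ← hWW] at n1 n3 n4
  rw [← hR] at n1 n3
  rw [← hWW] at n2 n5 hr hL hK
  have hu1 : 1 ≤ u := by
    rw [hu]
    have : 1 ≤ Z ^ 3 := Nat.one_le_pow _ _ (by omega)
    omega
  have hqr : ((4 * Z ^ 2 + 2 * C + 2 : ℕ) : ℝ) ≤ q := by exact_mod_cast hq
  push_cast at hqr
  have hC0 : (0 : ℝ) ≤ C := Nat.cast_nonneg _
  have hZ0 : (0 : ℝ) ≤ (Z : ℝ) ^ 2 := by positivity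
  have hδ : 0 < δ := by
    by_contra h
    push Not at h
    nlinarith
  have hδ1 : δ ≤ 1 := by nlinarith
  have hCδ : C * δ ≤ 1 := by nlinarith
  have hL3 : 3 ≤ L := by omega
  obtain ⟨J, hJ⟩ : ∃ J, J = K / u := ⟨_, rfl⟩
  have hJ1 : 1 ≤ J := by
    rw [hJ, Nat.one_le_div_iff (by omega)]
    omega
  have hJu : J * u ≤ K := by
    rw [hJ]
    exact Nat.div_mul_le_self K u
  have hKJ : K ≤ 2 * (J * u) := by
    have h3 : K < u * (K / u + 1) := Nat.lt_mul_div_succ K (by omega)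
    rw [← hJ, mul_add, mul_one] at h3
    have h4 : 1 * u ≤ J * u := Nat.mul_le_mul_right _ hJ1
    have h5 : u * J = J * u := Nat.mul_comm _ _
    omega
  have hq5 : 4 * lam * ρ ≤ q := by
    have : lam * ρ ≤ Z * Z := Nat.mul_le_mul hlam hρ
    nlinarith
  have hu4 : 4 * lam ^ 2 * κ₀ ≤ u := by
    rw [hu]
    calc 4 * lam ^ 2 * κ₀ ≤ 4 * Z ^ 2 * Z := by gcongr
      _ = 4 * Z ^ 3 := by ring
  have hR6 : C * (lam + 1) * (ρ + 1) * u ≤ R := by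
    rw [hR]
    calc C * (lam + 1) * (ρ + 1) * u ≤ C * (Z + 1) * (Z + 1) * u := by gcongr
      _ = C * (Z + 1) ^ 2 * u := by ring
  have hB2 : S_BAS2 := Pool.Agent.Q68.LC.bas2
  have hanti : ∀ k, Antitone fun j => ∑ x, fj σ q ω A δ (s k) j x ^ 2 := fun k =>
    antitone_nat_of_succ_le fun j => fj_mono hB2 hσ q ω A hδ.le hδ1 (s k) j
  have hA2 : (2 : ℝ) ≤ ((2 * (2 * Z + 1) ^ (2 * d) : ℕ) : ℝ) := by
    have : 1 ≤ (2 * Z + 1) ^ (2 * d) := Nat.one_le_pow _ _ (by omega)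
    exact_mod_cast (by omega : 2 ≤ 2 * (2 * Z + 1) ^ (2 * d))
  have hB1 : (1 : ℝ) ≤ ((2 * d ^ 2 * (C * R ^ (d + 1)) : ℕ) : ℝ) := by
    have h3 : 1 ≤ R := by
      rw [hR]
      exact Nat.mul_pos (Nat.mul_pos (by omega) (by positivity)) (by omega)
    have h4 : 1 ≤ 2 * d ^ 2 * (C * R ^ (d + 1)) :=
      Nat.mul_pos (Nat.mul_pos two_pos (pow_pos (by omega) 2)) (Nat.mul_pos (by omega) (pow_pos h3 _))
    exact_mod_cast h4
  have hfin := multi (L := L) hd (by omega) hA2 hB1 hJ1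
    (fun k j => ∑ x, fj σ q ω A δ (s k) (j * u) x ^ 2)
    (fun k j => sum_nonneg fun x _ => sq_nonneg _) ?_ ?_ ?_ ?_ k
  · have h3 : ∑ x, (vecMul (s k) (TT (ed ∘ σ) ω A δ (K * (q * ms d L))) x) ^ 2 ≤
        ∑ x, fj σ q ω A δ (s k) (J * u) x ^ 2 := hanti k hJu
    refine h3.trans (hfin.trans ?_)
    refine (fin_bound (u := u) (K := K) (W := (W : ℝ)) (by omega) (by linarith) (by linarith) hJ1 (by omega) hKJ
      ?_ ?_).trans (le_of_eq ?_)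
    · exact_mod_cast n1
    · exact_mod_cast n2
    · rw [hWW]
      push_cast
      rfl
  · rw [zero_mul]
    have e : fj σ q ω A δ (s 0) 0 = s 0 := by
      unfold fj
      rw [zero_mul]
      exact Matrix.vecMul_one _
    rw [e]
    exact hs2
  · intro k j _
    exact hanti k (Nat.mul_le_mul_right _ (Nat.le_succ j))
  · intro k
    rw [zero_mul]
    have e : fj σ q ω A δ (s (k + 1)) 0 = s (k + 1) := by
      unfold fj
      rw [zero_mul]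
      exact Matrix.vecMul_one _
    rw [e]
    exact (hs3 k).trans (hanti k hJu)
  · intro k j hj S hS1 hSL
    have e : (j + 1) * u = j * u + u := by ring
    have hju : j * u + u ≤ K := by
      rw [← e]
      exact (Nat.mul_le_mul_right _ hj).trans hJu
    rw [e, fj_add hB2 hσ q ω A hδ.le hδ1 (s k) (j * u) u]
    have hE' := (Pool.Agent.Q277.LC.sub d L hL3 σ hσ q K lam r ρ κ₀ ω A hE (j * u) u hju).2
    refine win_step hd hW hNSH hL3 hσ hδ hδ1 hCδ h1 h2 hu1 hlam (by omega) (by omega) hu4 hq5 hR6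
      (by omega) _ _ hE' _ (fj_nonneg hB2 σ q ω A hδ.le hδ1 (hs0 k) (j * u))
      (fj_zero hB2 σ q ω A hδ.le hδ1 (hsA k) (j * u)) ?_ S hS1 hSL
    rw [fj_sum hB2 σ q ω A hδ.le hδ1 (s k) (j * u)]
    exact hs1 k

/-- **LPT** -/
theorem lpt (hWIR : S_WIR) (hNSH : S_NSH) : S_LPT := by
  intro d hd
  obtain ⟨C, hC, hW⟩ := hWIR d hd
  refine ⟨C + d ^ 2 + 3, 14 * d + 25, by omega, ?_⟩
  intro Z hZ L K lam r ρ κ₀ _ hlam hρ hκ hr hL hK
  refine ⟨4 * Z ^ 2 + 2 * C + 2, ?_⟩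
  intro q hq σ hσ δ h1 h2 ω A hE f hf0 hfA hf1
  have hfle : ∀ x, f x ≤ 1 := fun x =>
    (single_le_sum (fun y _ => hf0 y) (mem_univ x)).trans hf1
  have h3 := laps hd hC (fun L _ => hW L) hNSH (by omega) (by omega) (by omega) hlam hρ hκ hr hL hK hq hσ
    h1 h2 hE (fun k => if k = 0 then f else fun _ => 0) ?_ ?_ ?_ ?_ ?_ 0
  · simpa using h3
  · intro k x
    split_ifs
    · exact hf0 x
    · exact le_rfl
  · intro k x hx
    split_ifs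
    · exact hfA x hx
    · rfl
  · intro k
    split_ifs
    · exact hf1
    · simp
  · rw [if_pos rfl]
    refine le_trans (sum_le_sum fun x _ => ?_) hf1
    have := hf0 x
    have := hfle x
    nlinarith
  · intro k
    rw [if_neg (Nat.succ_ne_zero k)]
    refine le_trans (le_of_eq ?_) (sum_nonneg fun x _ => sq_nonneg _)
    simp

/-- the start vectors of the laps -/
noncomputable def lapStart {V : Type} [Fintype V] [DecidableEq V] (T : Matrix V V ℝ)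
    (U : Finset V) (x : V) : ℕ → V → ℝ
  | 0 => Pi.single x 1
  | k + 1 => fun c => if c ∈ U then (T * (dg U * T) ^ k) x c else 0

/-- **LPM** -/
theorem lpm (hWIR : S_WIR) (hNSH : S_NSH) : S_LPM := by
  intro d hd
  obtain ⟨C, hC, hW⟩ := hWIR d hd
  refine ⟨C + d ^ 2 + 3, 14 * d + 25, by omega, ?_⟩
  intro Z hZ L K lam r ρ κ₀ _ hlam hρ hκ hr hL hK
  refine ⟨4 * Z ^ 2 + 2 * C + 2, ?_⟩
  intro q hq σ hσ δ h1 h2 ω A hE U x hUA hx k
  have hqr : ((4 * Z ^ 2 + 2 * C + 2 : ℕ) : ℝ) ≤ q := by exact_mod_cast hq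
  push_cast at hqr
  have hC0 : (0 : ℝ) ≤ C := Nat.cast_nonneg _
  have hZ0 : (0 : ℝ) ≤ (Z : ℝ) ^ 2 := by positivity
  have hδ : 0 < δ := by
    by_contra h
    push Not at h
    nlinarith
  have hδ1 : δ ≤ 1 := by nlinarith
  have hB := Pool.Agent.Q68.LC.bas2 _ (ed ∘ σ) ω A δ hδ.le hδ1
  obtain ⟨T, hT⟩ : ∃ T, T = TT (ed ∘ σ) ω A δ (K * (q * ms d L)) := ⟨_, rfl⟩
  have hT0 : ∀ x y, 0 ≤ T x y := by
    rw [hT]
    exact hB.1 _
  have hrow : ∀ x, ∑ y, T x y = 1 := by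
    rw [hT]
    exact hB.2.1 _
  rw [← hT]
  obtain ⟨s, hs⟩ : ∃ s : ℕ → (Fin d → ZMod L) → ℝ, s = lapStart T U x := ⟨_, rfl⟩
  have e0 : s 0 = Pi.single x 1 := by
    rw [hs]
    rfl
  have e1 : ∀ k, s (k + 1) = fun c => if c ∈ U then (T * (dg U * T) ^ k) x c else 0 := by
    intro k
    rw [hs]
    rfl
  have hrowk : ∀ k, vecMul (s k) T = fun z => (T * (dg U * T) ^ k) x z := by
    intro k
    cases k with
    | zero =>
      rw [e0, pow_zero, Matrix.mul_one]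
      exact Matrix.single_one_vecMul x T
    | succ k =>
      rw [e1]
      funext z
      rw [pow_right]
      rfl
  have hs0 : ∀ k, (∀ z, 0 ≤ s k z) ∧ ∑ z, s k z ≤ 1 := by
    intro k
    induction k with
    | zero =>
      rw [e0]
      refine ⟨fun z => ?_, ?_⟩
      · by_cases h : z = x
        · subst h; simp
        · simp [Pi.single_eq_of_ne h]
      · simp
    | succ k ih =>
      have h3 : ∀ z, 0 ≤ (T * (dg U * T) ^ k) x z := by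
        intro z
        have := congrFun (hrowk k) z
        rw [← this]
        exact vecMul_nonneg T _ hT0 ih.1 z
      have h4 : ∑ z, (T * (dg U * T) ^ k) x z ≤ 1 := by
        have h5 : ∑ z, (T * (dg U * T) ^ k) x z = ∑ z, vecMul (s k) T z :=
          sum_congr rfl fun z _ => (congrFun (hrowk k) z).symm
        rw [h5, sum_vecMul T _ hrow]
        exact ih.2
      rw [e1]
      refine ⟨fun z => ?_, ?_⟩
      · beta_reduce
        split_ifs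
        · exact h3 z
        · exact le_rfl
      · refine le_trans (sum_le_sum fun z _ => ?_) h4
        split_ifs
        · exact le_rfl
        · exact h3 z
  have h3 := laps hd hC (fun L _ => hW L) hNSH (by omega) (by omega) (by omega) hlam hρ hκ hr hL hK hq hσ
    h1 h2 hE s (fun k => (hs0 k).1) ?_ (fun k => (hs0 k).2) ?_ ?_ k
  · rw [← hT, hrowk k] at h3
    exact h3
  · intro k z hz
    cases k with
    | zero =>
      rw [e0]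
      exact Pi.single_eq_of_ne (by rintro rfl; exact hx hz) _
    | succ k =>
      rw [e1]
      beta_reduce
      rw [if_neg fun h => disjoint_left.1 hUA h hz]
  · rw [e0]
    refine le_of_eq ?_
    rw [Finset.sum_eq_single x]
    · simp
    · intro b _ hb
      simp [Pi.single_eq_of_ne hb]
    · simp
  · intro k
    rw [← hT, hrowk k, e1]
    refine sum_le_sum fun z _ => ?_
    beta_reduce
    split_ifs
    · exact le_rfl
    · rw [zero_pow two_ne_zero]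
      exact sq_nonneg _

end Pool.Agent.Q38.L2
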