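import Pool.Agent.Q38.L2.Pz3

set_option autoImplicit false

/-!
# Project L2 of helper255, job PZ: `S_PZ`
-/

namespace Pool.Agent.Q38.L2

open Filter Topology MeasureTheory Finset
open Pool.Agent.Q255.IC (pr sg)
open Pool.Agent.Q255.EP (cm)
open Pool.Agent.Y293.SF (mu)
open Pool.Agent.Q163.GC (Mf)

theorem pz : Pool.Agent.Q255.L2.S_PZ := by
  intro ν _ β θ hβ hβ1 hθ hθ1 h
  obtain ⟨Z, hZ0, hZ⟩ := gsum (s := 2 - 2 * β) (by linarith) (by linarith)
  obtain ⟨C2, hC2⟩ : ∃ C : ℝ, C = 5 + 40 * Z := ⟨_, rfl⟩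
  have hC0 : 0 < C2 := by
    rw [hC2]
    linarith
  refine ⟨1 / (128 * C2), by positivity, fun T => ?_⟩
  obtain ⟨T', hT'⟩ : ∃ T' : ℝ, T' = max T 0 := ⟨_, rfl⟩
  have hT0 : 0 ≤ T' := by
    rw [hT']
    exact le_max_right _ _
  have hTT : T ≤ T' := by
    rw [hT']
    exact le_max_left _ _
  have t1 : ∀ᶠ X : ℝ in atTop, 2 ≤ X ^ (1 - θ) :=
    (tendsto_rpow_atTop (by linarith : 0 < 1 - θ)).eventually_ge_atTop 2
  have t2 : ∀ᶠ X : ℝ in atTop, 32 * T' ≤ X ^ (θ / 2 + β - 1) :=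
    (tendsto_rpow_atTop (by linarith : 0 < θ / 2 + β - 1)).eventually_ge_atTop (32 * T')
  filter_upwards [eventually_ge_atTop (1 : ℝ), t1, t2, sqf_low] with X hX h1 h2 hs
  have hX0 : 0 < X := by linarith
  obtain ⟨H, hHd⟩ : ∃ H : ℝ, H = X ^ θ := ⟨_, rfl⟩
  have hH1 : 1 ≤ H := by
    rw [hHd]
    exact Real.one_le_rpow hX (by linarith)
  have hH0 : 0 < H := by linarith
  have hHX : H ≤ X / 2 := by
    have e1 : H * X ^ (1 - θ) = X := by
      rw [hHd, ← Real.rpow_add hX0]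
      have : θ + (1 - θ) = 1 := by ring
      rw [this, Real.rpow_one]
    have e2 := mul_le_mul_of_nonneg_left h1 hH0.le
    linarith
  obtain ⟨u, hu⟩ : ∃ u : ℝ, u = H * X ^ (β - 1) := ⟨_, rfl⟩
  have hu0 : 0 < u := by
    rw [hu]
    positivity
  have hTu : T' * √H ≤ u / 32 := by
    have e1 : √H = X ^ (θ / 2) := by
      rw [hHd, Real.sqrt_eq_rpow, ← Real.rpow_mul hX0.le]
      congr 1
      ring
    have e2 : u = X ^ (θ / 2 + β - 1) * X ^ (θ / 2) := by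
      rw [hu, hHd, ← Real.rpow_add hX0, ← Real.rpow_add hX0]
      congr 1
      ring
    rw [e1, e2]
    have e3 := mul_le_mul_of_nonneg_right h2 (show 0 ≤ X ^ (θ / 2) by positivity)
    linarith
  -- parameters
  obtain ⟨K, hKd⟩ : ∃ K : ℕ, K = ⌈2 * X + H⌉₊ + 1 := ⟨_, rfl⟩
  have hK : 2 * X + H ≤ (K : ℝ) - 1 := by
    rw [hKd]
    have := Nat.le_ceil (2 * X + H)
    push_cast
    linarith
  have hK5 : (K : ℝ) ≤ 5 * X := by
    rw [hKd]
    have := Nat.ceil_lt_add_one (show 0 ≤ 2 * X + H by positivity)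
    push_cast
    linarith
  have hh2 : (⌈H⌉₊ : ℝ) ≤ 2 * H := by
    have := Nat.ceil_lt_add_one hH0.le
    linarith
  -- second moment
  have hu2 : H * (H * X ^ (2 * β - 2)) = u ^ 2 := by
    have e1 : X ^ (2 * β - 2) = X ^ (β - 1) * X ^ (β - 1) := by
      rw [← Real.rpow_add hX0]
      congr 1
      ring
    rw [hu, e1]
    ring
  have hB : (X / 2) ^ (2 * β - 2) ≤ 2 * X ^ (2 * β - 2) := by
    rw [div_eq_mul_inv, Real.mul_rpow hX0.le (by norm_num), mul_comm]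
    refine mul_le_mul_of_nonneg_right ?_ (by positivity)
    rw [Real.inv_rpow (by norm_num), ← Real.rpow_neg (by norm_num)]
    calc (2 : ℝ) ^ (-(2 * β - 2)) ≤ 2 ^ (1 : ℝ) :=
          Real.rpow_le_rpow_of_exponent_le (by norm_num) (by linarith)
      _ = 2 := Real.rpow_one 2
  have hHu : H ≤ u ^ 2 := by
    rw [← hu2]
    have e1 : H * X ^ (2 * β - 2) = X ^ (θ + (2 * β - 2)) := by
      rw [hHd, ← Real.rpow_add hX0]
    have e2 : 1 ≤ H * X ^ (2 * β - 2) := by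
      rw [e1]
      exact Real.one_le_rpow hX (by linarith)
    exact le_mul_of_one_le_right hH0.le e2
  have hM2 : ∑ m ∈ range K, ∑ n ∈ range K, (∫ ω, ff ω m * ff ω n ∂ν) * k2 X H m n ≤ C2 * (X * u ^ 2) := by
    refine (M2_le hβ1 hZ h hX hH0.le (by linarith) K).trans ?_
    have a1 : Z * (K * ⌈H⌉₊) ≤ Z * (5 * X * (2 * H)) := by
      refine mul_le_mul_of_nonneg_left ?_ hZ0.le
      exact mul_le_mul hK5 hh2 (Nat.cast_nonneg _) (by linarith)
    have a2 : (X / 2) ^ (2 * β - 2) * (2 * (Z * (K * ⌈H⌉₊))) ≤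
        2 * X ^ (2 * β - 2) * (2 * (Z * (5 * X * (2 * H)))) :=
      mul_le_mul hB (by linarith) (by positivity) (by positivity)
    have a3 : H * (K + (X / 2) ^ (2 * β - 2) * (2 * (Z * (K * ⌈H⌉₊)))) ≤
        H * (5 * X + 2 * X ^ (2 * β - 2) * (2 * (Z * (5 * X * (2 * H))))) :=
      mul_le_mul_of_nonneg_left (add_le_add hK5 a2) hH0.le
    refine a3.trans ?_
    have a4 : H * (5 * X + 2 * X ^ (2 * β - 2) * (2 * (Z * (5 * X * (2 * H))))) =
        5 * X * H + 40 * Z * X * (H * (H * X ^ (2 * β - 2))) := by ring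
    rw [a4, hu2]
    have a5 : 5 * X * H ≤ 5 * X * u ^ 2 := mul_le_mul_of_nonneg_left hHu (by linarith)
    have a6 : C2 * (X * u ^ 2) = 5 * X * u ^ 2 + 40 * Z * X * u ^ 2 := by
      rw [hC2]
      ring
    rw [a6]
    linarith
  -- first moment
  have hM1 := M1_ge hβ hβ1 h hX hH0.le hHX hK hs
  rw [← hu] at hM1
  -- the inequality
  obtain ⟨lam, hlam⟩ : ∃ l : ℝ, l = 1 / (8 * C2 * u) := ⟨_, rfl⟩
  have hl0 : 0 < lam := by
    rw [hlam]
    positivity
  have hmean := mean_le (ν := ν) hX0.le hH0.le hT0 hl0 hK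
  obtain ⟨IV, hIV⟩ : ∃ I : ℝ, I = ∫ ω, (volume (GG X H T' ω)).toReal ∂ν := ⟨_, rfl⟩
  rw [← hIV] at hmean
  have b1 : lam / 2 * ∑ m ∈ range K, ∑ n ∈ range K, (∫ ω, ff ω m * ff ω n ∂ν) * k2 X H m n ≤ X * u / 16 := by
    have c1 := mul_le_mul_of_nonneg_left hM2 (show 0 ≤ lam / 2 by positivity)
    have c2 : lam / 2 * (C2 * (X * u ^ 2)) = X * u / 16 := by
      rw [hlam]
      field_simp
      ring
    linarith
  have b2 : 1 / (2 * lam) = 4 * C2 * u := by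
    rw [hlam]
    field_simp
    ring
  rw [b2] at hmean
  have b3 : T' * √H * X ≤ u / 32 * X := mul_le_mul_of_nonneg_right hTu hX0.le
  have b4 : X * u / 32 ≤ 4 * C2 * u * IV := by linarith
  have b5 : X ≤ 128 * C2 * IV := by
    have c1 : u * X ≤ u * (128 * C2 * IV) := by linarith
    exact le_of_mul_le_mul_left c1 hu0
  -- from `T'` to `T`
  have b6 : IV ≤ ∫ ω, (volume (GG X H T ω)).toReal ∂ν := by
    rw [hIV]
    refine integral_mono (V_int hX0.le hH0.le T') (V_int hX0.le hH0.le T) fun ω => ?_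
    have c1 : GG X H T' ω ⊆ GG X H T ω := by
      rintro x ⟨d1, d2⟩
      refine ⟨d1, lt_of_le_of_lt ?_ d2⟩
      exact mul_le_mul_of_nonneg_right hTT (Real.sqrt_nonneg H)
    refine ENNReal.toReal_mono ?_ (measure_mono c1)
    refine ne_top_of_le_ne_top (measure_Icc_lt_top (a := X) (b := 2 * X)).ne (measure_mono fun x hx => hx.1)
  have b7 : ∫ ω, (volume {x : ℝ | x ∈ Set.Icc X (2 * X) ∧
        T * √(X ^ θ) < Mf (fun n => mu n * cm ω n) x (X ^ θ)}).toReal / X ∂ν =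
      (∫ ω, (volume (GG X H T ω)).toReal ∂ν) / X := by
    rw [← integral_div, hHd]
    rfl
  rw [b7, le_div_iff₀ hX0, div_mul_eq_mul_div, one_mul, div_le_iff₀ (by positivity)]
  have b8 : 128 * C2 * IV ≤ 128 * C2 * ∫ ω, (volume (GG X H T ω)).toReal ∂ν :=
    mul_le_mul_of_nonneg_left b6 (by positivity)
  linarith

end Pool.Agent.Q38.L2
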