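import Pool.Agent.Q255.L2.StmG
import Pool.Agent.Q149.EP.DLa

set_option autoImplicit false

/-!
# Project L2 of helper255, job PZ: expectations and a sum of greatest common divisors
-/

namespace Pool.Agent.Q38.L2

open Filter Topology MeasureTheory Finset
open Pool.Agent.Q255.IC (pr sg)
open Pool.Agent.Q255.EP (cm)
open Pool.Agent.Y293.SF (mu)
open Pool.Agent.Q149.EP (cm_abs cm_sq cm_mul cm_meas cm_int cm2_int exp_cm)

/-- the random function -/
noncomputable def ff (ω : ℕ → Bool) (n : ℕ) : ℝ := mu n * cm ω n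

theorem mu_abs (n : ℕ) : |mu n| ≤ 1 := by
  unfold mu
  exact_mod_cast ArithmeticFunction.abs_moebius_le_one

theorem mu_zero : mu 0 = 0 := by
  unfold mu
  simp

variable {ν : Measure (ℕ → Bool)} [IsProbabilityMeasure ν]

theorem ff_meas (n : ℕ) : Measurable fun ω => ff ω n := (cm_meas n).const_mul _

theorem ff_int (n : ℕ) : Integrable (fun ω => ff ω n) ν := (cm_int n).const_mul _

theorem ff2_eq (m n : ℕ) : (fun ω => ff ω m * ff ω n) = fun ω => (mu m * mu n) * (cm ω m * cm ω n) := by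
  funext ω
  unfold ff
  ring

theorem ff2_int (m n : ℕ) : Integrable (fun ω => ff ω m * ff ω n) ν := by
  rw [ff2_eq]
  exact (cm2_int m n).const_mul _

theorem E1 {β : ℝ} (h : ∀ s : Finset ℕ, ∫ ω, ∏ k ∈ s, sg ω k ∂ν = ∏ k ∈ s, -(pr k : ℝ) ^ (β - 1))
    (n : ℕ) : ∫ ω, ff ω n ∂ν = mu n ^ 2 * (n : ℝ) ^ (β - 1) := by
  unfold ff
  rw [integral_const_mul]
  by_cases hn : Squarefree n
  · rw [exp_cm h hn]
    unfold mu
    ring
  · have h1 : mu n = 0 := by
      unfold mu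
      rw [ArithmeticFunction.moebius_eq_zero_of_not_squarefree hn]
      norm_num
    rw [h1]
    ring

theorem E2_diag (n : ℕ) : ∫ ω, ff ω n * ff ω n ∂ν ≤ 1 := by
  have h1 : (fun ω => ff ω n * ff ω n) = fun _ => mu n ^ 2 := by
    rw [ff2_eq]
    funext ω
    rw [cm_sq]
    ring
  rw [h1, integral_const, probReal_univ, one_smul, sq_le_one_iff_abs_le_one]
  exact mu_abs n

theorem E2_zero (m n : ℕ) (hmn : m = 0 ∨ n = 0) : ∫ ω, ff ω m * ff ω n ∂ν = 0 := by
  rw [ff2_eq]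
  rcases hmn with rfl | rfl
  · simp [mu_zero]
  · simp [mu_zero]

theorem E2 {β : ℝ} (h : ∀ s : Finset ℕ, ∫ ω, ∏ k ∈ s, sg ω k ∂ν = ∏ k ∈ s, -(pr k : ℝ) ^ (β - 1))
    {m n : ℕ} (hm : 1 ≤ m) (hn : 1 ≤ n) :
    ∫ ω, ff ω m * ff ω n ∂ν ≤ ((m : ℝ) * n) ^ (β - 1) * (Nat.gcd m n : ℝ) ^ (2 - 2 * β) := by
  have hpos : 0 ≤ ((m : ℝ) * n) ^ (β - 1) * (Nat.gcd m n : ℝ) ^ (2 - 2 * β) := by positivity
  by_cases hsm : Squarefree m
  swap
  · rw [ff2_eq]
    have h1 : mu m = 0 := by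
      unfold mu
      rw [ArithmeticFunction.moebius_eq_zero_of_not_squarefree hsm]
      norm_num
    simp only [h1, zero_mul, integral_zero]
    exact hpos
  by_cases hsn : Squarefree n
  swap
  · rw [ff2_eq]
    have h1 : mu n = 0 := by
      unfold mu
      rw [ArithmeticFunction.moebius_eq_zero_of_not_squarefree hsn]
      norm_num
    simp only [h1, mul_zero, zero_mul, integral_zero]
    exact hpos
  obtain ⟨a, b, hab, ha, hb⟩ := Nat.exists_coprime m n
  obtain ⟨g, hg⟩ : ∃ g : ℕ, g = Nat.gcd m n := ⟨_, rfl⟩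
  rw [← hg] at ha hb ⊢
  have hg0 : g ≠ 0 := by
    rintro rfl
    rw [mul_zero] at ha
    omega
  have ha0 : a ≠ 0 := by
    rintro rfl
    rw [zero_mul] at ha
    omega
  have hb0 : b ≠ 0 := by
    rintro rfl
    rw [zero_mul] at hb
    omega
  have hcag : Nat.Coprime a g := Nat.coprime_of_squarefree_mul (ha ▸ hsm)
  have hcbg : Nat.Coprime b g := Nat.coprime_of_squarefree_mul (hb ▸ hsn)
  have hsa : Squarefree a := hsm.squarefree_of_dvd ⟨g, ha⟩
  have hsb : Squarefree b := hsn.squarefree_of_dvd ⟨g, hb⟩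
  have hsg : Squarefree g := hsm.squarefree_of_dvd ⟨a, by rw [ha, mul_comm]⟩
  have hsab : Squarefree (a * b) := (Nat.squarefree_mul hab).2 ⟨hsa, hsb⟩
  have hmul : ∀ x y : ℕ, Nat.Coprime x y → mu (x * y) = mu x * mu y := by
    intro x y hxy
    unfold mu
    rw [ArithmeticFunction.isMultiplicative_moebius.map_mul_of_coprime hxy]
    push_cast
    rfl
  have hsq : mu g * mu g = 1 := by
    have h3 := ArithmeticFunction.moebius_sq_eq_one_of_squarefree hsg
    rw [sq] at h3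
    unfold mu
    exact_mod_cast h3
  have hsqab : mu (a * b) * mu (a * b) = 1 := by
    have h3 := ArithmeticFunction.moebius_sq_eq_one_of_squarefree hsab
    rw [sq] at h3
    unfold mu
    exact_mod_cast h3
  have e1 : (fun ω => ff ω m * ff ω n) = fun ω => mu (a * b) * cm ω (a * b) := by
    funext ω
    unfold ff
    rw [ha, hb, hmul a g hcag, hmul b g hcbg, hmul a b hab, cm_mul ω ha0 hg0, cm_mul ω hb0 hg0,
      cm_mul ω ha0 hb0]
    have h4 := cm_sq ω g
    linear_combination (mu a * mu b * cm ω a * cm ω b * (cm ω g * cm ω g)) * hsq +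
      (mu a * mu b * cm ω a * cm ω b) * h4
  rw [e1, integral_const_mul, exp_cm h hsab]
  have e2 : mu (a * b) * (((ArithmeticFunction.moebius (a * b) : ℤ) : ℝ) * ((a * b : ℕ) : ℝ) ^ (β - 1)) =
      (mu (a * b) * mu (a * b)) * ((a * b : ℕ) : ℝ) ^ (β - 1) := by
    unfold mu
    ring
  rw [e2, hsqab, one_mul]
  apply le_of_eq
  have hgp : (0 : ℝ) < g := by exact_mod_cast Nat.pos_of_ne_zero hg0
  have hap : (0 : ℝ) < a := by exact_mod_cast Nat.pos_of_ne_zero ha0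
  have hbp : (0 : ℝ) < b := by exact_mod_cast Nat.pos_of_ne_zero hb0
  rw [ha, hb]
  push_cast
  have e3 : (a : ℝ) * g * (b * g) = (a * b) * (g * g) := by ring
  have e5 : ((a : ℝ) * b * (g * g)) ^ (β - 1) * (g : ℝ) ^ (2 - 2 * β) = ((a : ℝ) * b) ^ (β - 1) := by
    rw [Real.mul_rpow (by positivity : (0 : ℝ) ≤ (a : ℝ) * b) (by positivity : (0 : ℝ) ≤ (g : ℝ) * g),
      Real.mul_rpow hgp.le hgp.le, mul_assoc, ← Real.rpow_add hgp, ← Real.rpow_add hgp]
    have e4 : β - 1 + (β - 1) + (2 - 2 * β) = 0 := by ring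
    rw [e4, Real.rpow_zero, mul_one]
  rw [e3, e5]

/-- the sum of the powers of the greatest common divisors -/
theorem gsum {s : ℝ} (hs0 : 0 ≤ s) (hs : s < 1) : ∃ Z : ℝ, 0 < Z ∧ ∀ N h : ℕ,
    ∑ m ∈ Icc 1 N, ∑ d ∈ Icc 1 h, (Nat.gcd m d : ℝ) ^ s ≤ Z * (N * h) := by
  classical
  have hsum : Summable fun g : ℕ => (g : ℝ) ^ (s - 2) := Real.summable_nat_rpow.2 (by linarith)
  refine ⟨∑' g : ℕ, (g : ℝ) ^ (s - 2) + 1, ?_, fun N h => ?_⟩
  · have : 0 ≤ ∑' g : ℕ, (g : ℝ) ^ (s - 2) := tsum_nonneg fun g => by positivity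
    linarith
  have h1 : ∀ m ∈ Icc 1 N, ∀ d ∈ Icc 1 h, (Nat.gcd m d : ℝ) ^ s ≤
      ∑ g ∈ Icc 1 h, (g : ℝ) ^ s * ((if g ∣ m then 1 else 0) * (if g ∣ d then 1 else 0)) := by
    intro m hm d hd
    rw [mem_Icc] at hm hd
    have hg : Nat.gcd m d ∈ Icc 1 h := by
      rw [mem_Icc]
      exact ⟨Nat.gcd_pos_of_pos_left _ (by omega), (Nat.gcd_le_right _ (by omega)).trans hd.2⟩
    have h2 := single_le_sum (f := fun g : ℕ => (g : ℝ) ^ s *
      ((if g ∣ m then 1 else 0) * (if g ∣ d then 1 else 0))) (fun g _ => by positivity) hg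
    refine le_trans (le_of_eq ?_) h2
    rw [if_pos (Nat.gcd_dvd_left _ _), if_pos (Nat.gcd_dvd_right _ _)]
    ring
  have hcard : ∀ (M g : ℕ), ∑ m ∈ Icc 1 M, (if g ∣ m then (1 : ℝ) else 0) ≤ M / g := by
    intro M g
    rw [← sum_filter, sum_const, nsmul_eq_mul, mul_one]
    have h2 : ((Icc 1 M).filter (fun m => g ∣ m)).card = M / g := by
      have : Icc 1 M = Ioc 0 M := by
        ext x
        simp only [mem_Icc, mem_Ioc]
        omega
      rw [this]
      exact Nat.Ioc_filter_dvd_card_eq_div M g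
    rw [h2]
    exact Nat.cast_div_le
  calc ∑ m ∈ Icc 1 N, ∑ d ∈ Icc 1 h, (Nat.gcd m d : ℝ) ^ s
      ≤ ∑ m ∈ Icc 1 N, ∑ d ∈ Icc 1 h, ∑ g ∈ Icc 1 h, (g : ℝ) ^ s *
          ((if g ∣ m then 1 else 0) * (if g ∣ d then 1 else 0)) :=
        sum_le_sum fun m hm => sum_le_sum fun d hd => h1 m hm d hd
    _ = ∑ g ∈ Icc 1 h, (g : ℝ) ^ s * ((∑ m ∈ Icc 1 N, (if g ∣ m then 1 else 0)) *
          ∑ d ∈ Icc 1 h, (if g ∣ d then 1 else 0)) := by
        have e1 : ∀ m ∈ Icc 1 N, ∑ d ∈ Icc 1 h, ∑ g ∈ Icc 1 h, (g : ℝ) ^ s *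
            ((if g ∣ m then (1 : ℝ) else 0) * (if g ∣ d then 1 else 0)) =
            ∑ g ∈ Icc 1 h, (g : ℝ) ^ s * ((if g ∣ m then 1 else 0) * ∑ d ∈ Icc 1 h, (if g ∣ d then 1 else 0)) := by
          intro m _
          rw [sum_comm]
          refine sum_congr rfl fun g _ => ?_
          rw [mul_sum, mul_sum]
        rw [sum_congr rfl e1, sum_comm]
        refine sum_congr rfl fun g _ => ?_
        rw [sum_mul, mul_sum]
    _ ≤ ∑ g ∈ Icc 1 h, (g : ℝ) ^ s * ((N / g) * (h / g)) := by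
        refine sum_le_sum fun g _ => mul_le_mul_of_nonneg_left ?_ (by positivity)
        exact mul_le_mul (hcard N g) (hcard h g) (sum_nonneg fun d _ => by positivity) (by positivity)
    _ = (N * h) * ∑ g ∈ Icc 1 h, (g : ℝ) ^ (s - 2) := by
        rw [mul_sum]
        refine sum_congr rfl fun g hg => ?_
        have hg0 : (0 : ℝ) < g := by exact_mod_cast (mem_Icc.1 hg).1
        rw [Real.rpow_sub hg0, Real.rpow_two]
        field_simp
    _ ≤ (N * h) * (∑' g : ℕ, (g : ℝ) ^ (s - 2) + 1) := by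
        refine mul_le_mul_of_nonneg_left ?_ (by positivity)
        have := hsum.sum_le_tsum (Icc 1 h) (fun g _ => by positivity)
        linarith
    _ = _ := by ring

end Pool.Agent.Q38.L2
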