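import Pool.Agent.Q38.L2.Pz1

set_option autoImplicit false

/-!
# Project L2 of helper255, job PZ: windows
-/

namespace Pool.Agent.Q38.L2

open Filter Topology MeasureTheory Finset
open Pool.Agent.Q255.IC (pr sg)
open Pool.Agent.Q255.EP (cm)
open Pool.Agent.Y293.SF (mu)
open Pool.Agent.Q163.GC (Mf)

/-- the window around `n` -/
def Iv (H : ℝ) (n : ℕ) : Set ℝ := Set.Ioo ((n : ℝ) - H / 2) (n + H / 2)

theorem mem_Iv {H : ℝ} {n : ℕ} {x : ℝ} : x ∈ Iv H n ↔ |(n : ℝ) - x| < H / 2 := by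
  unfold Iv
  rw [Set.mem_Ioo, abs_lt]
  constructor
  · rintro ⟨h1, h2⟩
    constructor <;> linarith
  · rintro ⟨h1, h2⟩
    constructor <;> linarith

theorem Iv_meas (H : ℝ) (n : ℕ) : MeasurableSet (Iv H n) := measurableSet_Ioo

/-- the indicator function -/
noncomputable def us (H : ℝ) (n : ℕ) (x : ℝ) : ℝ := (Iv H n).indicator (fun _ => (1 : ℝ)) x

theorem us_meas (H : ℝ) (n : ℕ) : Measurable (us H n) := measurable_const.indicator (Iv_meas H n)

theorem us_nonneg (H : ℝ) (n : ℕ) (x : ℝ) : 0 ≤ us H n x :=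
  Set.indicator_nonneg (fun _ _ => zero_le_one) x

theorem us_le (H : ℝ) (n : ℕ) (x : ℝ) : us H n x ≤ 1 := by
  unfold us
  by_cases h : x ∈ Iv H n
  · rw [Set.indicator_of_mem h]
  · rw [Set.indicator_of_notMem h]
    exact zero_le_one

/-- the interval -/
noncomputable def mJ (X : ℝ) : Measure ℝ := volume.restrict (Set.Icc X (2 * X))

instance mJ_fin (X : ℝ) : IsFiniteMeasure (mJ X) := by
  unfold mJ
  infer_instance

theorem us_int (X H : ℝ) (n : ℕ) : Integrable (us H n) (mJ X) :=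
  (integrable_const (1 : ℝ)).mono' (us_meas H n).aestronglyMeasurable
    (Eventually.of_forall fun x => by
      rw [Real.norm_eq_abs, abs_of_nonneg (us_nonneg H n x)]
      exact us_le H n x)

theorem us2_int (X H : ℝ) (m n : ℕ) : Integrable (fun x => us H m x * us H n x) (mJ X) :=
  (integrable_const (1 : ℝ)).mono' ((us_meas H m).mul (us_meas H n)).aestronglyMeasurable
    (Eventually.of_forall fun x => by
      rw [Real.norm_eq_abs, abs_of_nonneg (mul_nonneg (us_nonneg H m x) (us_nonneg H n x))]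
      exact mul_le_one₀ (us_le H m x) (us_nonneg H n x) (us_le H n x))

/-- first kernel -/
noncomputable def k1 (X H : ℝ) (n : ℕ) : ℝ := ∫ x, us H n x ∂(mJ X)

/-- second kernel -/
noncomputable def k2 (X H : ℝ) (m n : ℕ) : ℝ := ∫ x, us H m x * us H n x ∂(mJ X)

theorem k1_eq (X H : ℝ) (n : ℕ) : k1 X H n = volume.real (Iv H n ∩ Set.Icc X (2 * X)) := by
  unfold k1 us mJ
  rw [integral_indicator (Iv_meas H n), Measure.restrict_restrict (Iv_meas H n), integral_const, smul_eq_mul, mul_one,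
    measureReal_restrict_apply_univ]

theorem vol_Iv {H : ℝ} (hH : 0 ≤ H) (n : ℕ) : volume.real (Iv H n) = H := by
  unfold Iv
  rw [Real.volume_real_Ioo_of_le (by linarith)]
  ring

theorem k1_nonneg (X H : ℝ) (n : ℕ) : 0 ≤ k1 X H n := integral_nonneg fun x => us_nonneg H n x

theorem k1_le (X : ℝ) {H : ℝ} (hH : 0 ≤ H) (n : ℕ) : k1 X H n ≤ H := by
  rw [k1_eq]
  refine (measureReal_mono Set.inter_subset_left ?_).trans (vol_Iv hH n).le
  unfold Iv
  exact measure_Ioo_lt_top.ne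

theorem k1_full {X H : ℝ} (hH : 0 ≤ H) {n : ℕ} (h1 : X + H / 2 ≤ n) (h2 : (n : ℝ) ≤ 2 * X - H / 2) :
    k1 X H n = H := by
  rw [k1_eq]
  have : Iv H n ∩ Set.Icc X (2 * X) = Iv H n := by
    apply Set.inter_eq_left.2
    intro x hx
    unfold Iv at hx
    rw [Set.mem_Ioo] at hx
    rw [Set.mem_Icc]
    constructor <;> linarith
  rw [this, vol_Iv hH]

theorem k2_nonneg (X H : ℝ) (m n : ℕ) : 0 ≤ k2 X H m n :=
  integral_nonneg fun x => mul_nonneg (us_nonneg H m x) (us_nonneg H n x)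

theorem k2_le (X : ℝ) {H : ℝ} (hH : 0 ≤ H) (m n : ℕ) : k2 X H m n ≤ H := by
  refine le_trans ?_ (k1_le X hH m)
  refine integral_mono (us2_int X H m n) (us_int X H m) fun x => ?_
  exact mul_le_of_le_one_right (us_nonneg H m x) (us_le H n x)

theorem k2_zero {X H : ℝ} {m n : ℕ} (h : ¬ ∃ x ∈ Set.Icc X (2 * X), x ∈ Iv H m ∧ x ∈ Iv H n) : k2 X H m n = 0 := by
  unfold k2 mJ
  have h1 : ∀ x ∈ Set.Icc X (2 * X), us H m x * us H n x = 0 := by
    intro x hx
    unfold us
    by_cases h2 : x ∈ Iv H m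
    · have h3 : x ∉ Iv H n := fun h3 => h ⟨x, hx, h2, h3⟩
      rw [Set.indicator_of_notMem h3, mul_zero]
    · rw [Set.indicator_of_notMem h2, zero_mul]
  rw [setIntegral_congr_fun measurableSet_Icc h1, integral_zero]

/-- the sum over the window -/
noncomputable def SS (H : ℝ) (K : ℕ) (ω : ℕ → Bool) (x : ℝ) : ℝ := ∑ n ∈ range K, ff ω n * us H n x

theorem Mf_eq' {X H : ℝ} (hH : 0 ≤ H) {K : ℕ} (hK : 2 * X + H ≤ (K : ℝ) - 1) (ω : ℕ → Bool) {x : ℝ}
    (hx : x ∈ Set.Icc X (2 * X)) : Mf (fun n => mu n * cm ω n) x H = SS H K ω x := by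
  unfold Mf SS
  rw [sum_filter]
  have h1 : ∀ n : ℕ, (if |(n : ℝ) - x| < H / 2 then mu n * cm ω n else 0) = ff ω n * us H n x := by
    intro n
    unfold us ff
    by_cases h : x ∈ Iv H n
    · rw [Set.indicator_of_mem h, if_pos (mem_Iv.1 h), mul_one]
    · rw [Set.indicator_of_notMem h, if_neg (fun h' => h (mem_Iv.2 h')), mul_zero]
  rw [sum_congr rfl fun n _ => h1 n]
  rw [Set.mem_Icc] at hx
  have hsub : range (⌈x + H⌉₊ + 1) ⊆ range K := by
    intro n hn
    rw [mem_range] at hn ⊢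
    have h2 : ⌈x + H⌉₊ ≤ K - 1 := by
      rw [Nat.ceil_le]
      rcases Nat.eq_zero_or_pos K with h0 | h0
      · rw [h0] at hK ⊢
        norm_num at hK ⊢
        linarith
      · have h3 : ((K - 1 : ℕ) : ℝ) = (K : ℝ) - 1 := by
          rw [Nat.cast_sub h0, Nat.cast_one]
        rw [h3]
        linarith
    have h4 : 0 < K := by
      rcases Nat.eq_zero_or_pos K with h0 | h0
      · exfalso
        rw [h0] at hK
        norm_num at hK
        have : 0 ≤ (⌈x + H⌉₊ : ℝ) := Nat.cast_nonneg _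
        linarith
      · exact h0
    omega
  refine sum_subset hsub fun n _ hn => ?_
  rw [mem_range, not_lt] at hn
  have h2 : x + H < n := by
    have h3 := Nat.le_ceil (x + H)
    have h4 : ((⌈x + H⌉₊ + 1 : ℕ) : ℝ) ≤ n := by exact_mod_cast hn
    push_cast at h4
    linarith
  unfold us
  rw [Set.indicator_of_notMem, mul_zero]
  rw [mem_Iv]
  intro h3
  have := (abs_lt.1 h3).2
  linarith

theorem SS_int (X H : ℝ) (K : ℕ) (ω : ℕ → Bool) : Integrable (SS H K ω) (mJ X) := by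
  unfold SS
  exact integrable_finsetSum _ fun n _ => (us_int X H n).const_mul _

theorem SS_eq1 (X H : ℝ) (K : ℕ) (ω : ℕ → Bool) : ∫ x, SS H K ω x ∂(mJ X) = ∑ n ∈ range K, ff ω n * k1 X H n := by
  unfold SS k1
  rw [integral_finsetSum _ fun n _ => (us_int X H n).const_mul _]
  exact sum_congr rfl fun n _ => integral_const_mul _ _

theorem SS_sq (H : ℝ) (K : ℕ) (ω : ℕ → Bool) (x : ℝ) : SS H K ω x ^ 2 =
    ∑ m ∈ range K, ∑ n ∈ range K, (ff ω m * ff ω n) * (us H m x * us H n x) := by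
  unfold SS
  rw [sq, sum_mul_sum]
  refine sum_congr rfl fun m _ => sum_congr rfl fun n _ => ?_
  ring

theorem SS2_int (X H : ℝ) (K : ℕ) (ω : ℕ → Bool) : Integrable (fun x => SS H K ω x ^ 2) (mJ X) := by
  simp only [SS_sq]
  exact integrable_finsetSum _ fun m _ => integrable_finsetSum _ fun n _ => (us2_int X H m n).const_mul _

theorem SS_eq2 (X H : ℝ) (K : ℕ) (ω : ℕ → Bool) : ∫ x, SS H K ω x ^ 2 ∂(mJ X) =
    ∑ m ∈ range K, ∑ n ∈ range K, (ff ω m * ff ω n) * k2 X H m n := by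
  simp only [SS_sq]
  unfold k2
  rw [integral_finsetSum _ fun m _ => integrable_finsetSum _ fun n _ => (us2_int X H m n).const_mul _]
  refine sum_congr rfl fun m _ => ?_
  rw [integral_finsetSum _ fun n _ => (us2_int X H m n).const_mul _]
  exact sum_congr rfl fun n _ => integral_const_mul _ _

/-- the set where the sum is large -/
def GG (X H T : ℝ) (ω : ℕ → Bool) : Set ℝ :=
  {x : ℝ | x ∈ Set.Icc X (2 * X) ∧ T * √H < Mf (fun n => mu n * cm ω n) x H}

theorem GG_eq {X H : ℝ} (hH : 0 ≤ H) (T : ℝ) {K : ℕ} (hK : 2 * X + H ≤ (K : ℝ) - 1) (ω : ℕ → Bool) :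
    GG X H T ω = {x : ℝ | x ∈ Set.Icc X (2 * X) ∧ T * √H < SS H K ω x} := by
  unfold GG
  ext x
  simp only [Set.mem_setOf_eq]
  constructor
  · rintro ⟨h1, h2⟩
    rw [Mf_eq' hH hK ω h1] at h2
    exact ⟨h1, h2⟩
  · rintro ⟨h1, h2⟩
    rw [Mf_eq' hH hK ω h1]
    exact ⟨h1, h2⟩

theorem SS_meas2 (H : ℝ) (K : ℕ) : Measurable fun p : (ℕ → Bool) × ℝ => SS H K p.1 p.2 := by
  unfold SS
  refine Finset.measurable_sum _ fun n _ => ?_
  exact ((ff_meas n).comp measurable_fst).mul ((us_meas H n).comp measurable_snd)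

theorem A_meas (X H T : ℝ) (K : ℕ) :
    MeasurableSet {p : (ℕ → Bool) × ℝ | p.2 ∈ Set.Icc X (2 * X) ∧ T * √H < SS H K p.1 p.2} := by
  have h1 : MeasurableSet {p : (ℕ → Bool) × ℝ | p.2 ∈ Set.Icc X (2 * X)} := measurable_snd measurableSet_Icc
  have h2 : MeasurableSet {p : (ℕ → Bool) × ℝ | T * √H < SS H K p.1 p.2} :=
    measurableSet_lt measurable_const (SS_meas2 H K)
  exact h1.inter h2

theorem GG_vol_meas {X H : ℝ} (hH : 0 ≤ H) (T : ℝ) {K : ℕ} (hK : 2 * X + H ≤ (K : ℝ) - 1) :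
    Measurable fun ω => (volume (GG X H T ω)).toReal := by
  simp only [GG_eq hH T hK]
  exact (measurable_measure_prodMk_left (ν := (volume : Measure ℝ)) (A_meas X H T K)).ennreal_toReal

theorem GG_meas {X H : ℝ} (hH : 0 ≤ H) (T : ℝ) {K : ℕ} (hK : 2 * X + H ≤ (K : ℝ) - 1) (ω : ℕ → Bool) :
    MeasurableSet (GG X H T ω) := by
  rw [GG_eq hH T hK]
  exact measurable_prodMk_left (A_meas X H T K)

theorem GG_le {X : ℝ} (hX : 0 ≤ X) (H T : ℝ) (ω : ℕ → Bool) : (volume (GG X H T ω)).toReal ≤ X := by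
  have h1 : volume.real (GG X H T ω) ≤ volume.real (Set.Icc X (2 * X)) := by
    refine measureReal_mono (fun x hx => hx.1) ?_
    exact measure_Icc_lt_top.ne
  rw [Real.volume_real_Icc_of_le (by linarith)] at h1
  have h2 : volume.real (GG X H T ω) = (volume (GG X H T ω)).toReal := rfl
  rw [h2] at h1
  linarith

/-- the inequality for one `ω` -/
theorem one_ω {X H T lam : ℝ} (hX : 0 ≤ X) (hH : 0 ≤ H) (hT : 0 ≤ T) (hl : 0 < lam) {K : ℕ}
    (hK : 2 * X + H ≤ (K : ℝ) - 1) (ω : ℕ → Bool) :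
    ∑ n ∈ range K, ff ω n * k1 X H n ≤ T * √H * X +
      (lam / 2 * ∑ m ∈ range K, ∑ n ∈ range K, (ff ω m * ff ω n) * k2 X H m n +
      1 / (2 * lam) * (volume (GG X H T ω)).toReal) := by
  rw [← SS_eq1, ← SS_eq2]
  have hG := GG_meas hH T hK ω
  have e1 : ∫ x, (GG X H T ω).indicator (fun _ => (1 : ℝ)) x ∂(mJ X) = (volume (GG X H T ω)).toReal := by
    unfold mJ
    rw [integral_indicator hG, Measure.restrict_restrict hG, integral_const, smul_eq_mul, mul_one,
      measureReal_restrict_apply_univ]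
    have : GG X H T ω ∩ Set.Icc X (2 * X) = GG X H T ω := Set.inter_eq_left.2 fun x hx => hx.1
    rw [this]
    rfl
  have i1 : Integrable (fun x => (GG X H T ω).indicator (fun _ => (1 : ℝ)) x) (mJ X) :=
    (integrable_const (1 : ℝ)).indicator hG
  have e2 : ∫ _x, T * √H ∂(mJ X) = T * √H * X := by
    rw [integral_const, smul_eq_mul]
    unfold mJ
    rw [measureReal_restrict_apply_univ, Real.volume_real_Icc_of_le (by linarith)]
    ring
  have i2 : Integrable (fun x => lam / 2 * SS H K ω x ^ 2 + 1 / (2 * lam) *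
      (GG X H T ω).indicator (fun _ => (1 : ℝ)) x) (mJ X) :=
    ((SS2_int X H K ω).const_mul _).add (i1.const_mul _)
  have i3 : Integrable (fun x => T * √H + (lam / 2 * SS H K ω x ^ 2 + 1 / (2 * lam) *
      (GG X H T ω).indicator (fun _ => (1 : ℝ)) x)) (mJ X) := (integrable_const _).add i2
  have e3 : ∫ x, (T * √H + (lam / 2 * SS H K ω x ^ 2 + 1 / (2 * lam) *
      (GG X H T ω).indicator (fun _ => (1 : ℝ)) x)) ∂(mJ X) = T * √H * X +
      (lam / 2 * ∫ x, SS H K ω x ^ 2 ∂(mJ X) + 1 / (2 * lam) * (volume (GG X H T ω)).toReal) := by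
    rw [integral_add (integrable_const _) i2, e2, integral_add ((SS2_int X H K ω).const_mul _)
      (i1.const_mul _), integral_const_mul (lam / 2), integral_const_mul (1 / (2 * lam)), e1]
  rw [← e3]
  have hms : MeasurableSet (Set.Icc X (2 * X)) := measurableSet_Icc
  unfold mJ at i3 ⊢
  refine setIntegral_mono_on (SS_int X H K ω) i3 hms fun x hx => ?_
  obtain ⟨S, hS⟩ : ∃ S : ℝ, S = SS H K ω x := ⟨_, rfl⟩
  rw [← hS]
  have hTH : 0 ≤ T * √H := by positivity
  by_cases hxG : x ∈ GG X H T ω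
  · rw [Set.indicator_of_mem hxG]
    have h1 : 0 ≤ lam / 2 * (S - 1 / lam) ^ 2 := by positivity
    have h2 : lam / 2 * (S - 1 / lam) ^ 2 = lam / 2 * S ^ 2 - S + 1 / (2 * lam) := by
      field_simp
      ring
    linarith
  · rw [Set.indicator_of_notMem hxG]
    have h1 : S ≤ T * √H := by
      rw [GG_eq hH T hK] at hxG
      by_contra hcon
      apply hxG
      refine ⟨hx, ?_⟩
      rw [← hS]
      exact not_le.1 hcon
    have h2 : 0 ≤ lam / 2 * S ^ 2 := by positivity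
    linarith

end Pool.Agent.Q38.L2
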