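import Pool.Agent.Q38.L2.Pz2

set_option autoImplicit false

/-!
# Project L2 of helper255, job PZ: the moments
-/

namespace Pool.Agent.Q38.L2

open Filter Topology MeasureTheory Finset
open Pool.Agent.Q255.IC (pr sg)
open Pool.Agent.Q255.EP (cm)
open Pool.Agent.Y293.SF (mu)
open Pool.Agent.Q163.GC (Mf)

variable {ν : Measure (ℕ → Bool)} [IsProbabilityMeasure ν]

/-- the bound for one pair -/
theorem term_le {β : ℝ} (hβ1 : β < 1)
    (h : ∀ s : Finset ℕ, ∫ ω, ∏ k ∈ s, sg ω k ∂ν = ∏ k ∈ s, -(pr k : ℝ) ^ (β - 1))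
    {X H : ℝ} (hX : 1 ≤ X) (hH : 0 ≤ H) (hHX : H ≤ X) (m n : ℕ) :
    (∫ ω, ff ω m * ff ω n ∂ν) * k2 X H m n ≤ H * ((if n = m then 1 else 0) + (X / 2) ^ (2 * β - 2) *
      ∑ d ∈ Icc 1 ⌈H⌉₊, ((if n = m + d then 1 else 0) + (if m = n + d then 1 else 0)) *
        (Nat.gcd m d : ℝ) ^ (2 - 2 * β)) := by
  have hR : 0 ≤ H * ((if n = m then (1 : ℝ) else 0) + (X / 2) ^ (2 * β - 2) *
      ∑ d ∈ Icc 1 ⌈H⌉₊, ((if n = m + d then 1 else 0) + (if m = n + d then 1 else 0)) *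
        (Nat.gcd m d : ℝ) ^ (2 - 2 * β)) := by
    refine mul_nonneg hH (add_nonneg (by positivity) (mul_nonneg (by positivity) (sum_nonneg fun d _ => ?_)))
    positivity
  by_cases hx : ∃ x ∈ Set.Icc X (2 * X), x ∈ Iv H m ∧ x ∈ Iv H n
  swap
  · rw [k2_zero hx, mul_zero]
    exact hR
  obtain ⟨x, hxJ, hxm, hxn⟩ := hx
  rw [mem_Iv, abs_lt] at hxm hxn
  rw [Set.mem_Icc] at hxJ
  have hm2 : X / 2 ≤ m := by linarith
  have hn2 : X / 2 ≤ n := by linarith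
  have hm1 : 1 ≤ m := by
    by_contra hc
    have : m = 0 := by omega
    rw [this] at hm2
    norm_num at hm2
    linarith
  have hn1 : 1 ≤ n := by
    by_contra hc
    have : n = 0 := by omega
    rw [this] at hn2
    norm_num at hn2
    linarith
  have hk0 := k2_nonneg X H m n
  have hk1 := k2_le X hH m n
  by_cases hmn : n = m
  · rw [hmn] at hk0 hk1 hR ⊢
    have h1 : (∫ ω, ff ω m * ff ω m ∂ν) * k2 X H m m ≤ 1 * k2 X H m m :=
      mul_le_mul_of_nonneg_right (E2_diag m) hk0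
    rw [if_pos rfl]
    have h2 : 0 ≤ H * ((X / 2) ^ (2 * β - 2) *
      ∑ d ∈ Icc 1 ⌈H⌉₊, ((if m = m + d then (1 : ℝ) else 0) + (if m = m + d then 1 else 0)) *
        (Nat.gcd m d : ℝ) ^ (2 - 2 * β)) := by
      refine mul_nonneg hH (mul_nonneg (by positivity) (sum_nonneg fun d _ => ?_))
      positivity
    rw [mul_add, mul_one]
    linarith
  · -- the distance
    obtain ⟨d, hd1, hd2, hd3⟩ : ∃ d : ℕ, d ∈ Icc 1 ⌈H⌉₊ ∧ (n = m + d ∨ m = n + d) ∧
        Nat.gcd m n = Nat.gcd m d := by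
      rcases lt_or_gt_of_ne hmn with hlt | hlt
      · refine ⟨m - n, ?_, Or.inr (by omega), ?_⟩
        · rw [mem_Icc]
          refine ⟨by omega, ?_⟩
          have h1 : ((m - n : ℕ) : ℝ) ≤ ⌈H⌉₊ := by
            rw [Nat.cast_sub hlt.le]
            have := Nat.le_ceil H
            linarith
          exact_mod_cast h1
        · obtain ⟨e, rfl⟩ := Nat.exists_eq_add_of_le hlt.le
          rw [Nat.add_sub_cancel_left]
          simp [Nat.gcd_comm]
      · refine ⟨n - m, ?_, Or.inl (by omega), ?_⟩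
        · rw [mem_Icc]
          refine ⟨by omega, ?_⟩
          have h1 : ((n - m : ℕ) : ℝ) ≤ ⌈H⌉₊ := by
            rw [Nat.cast_sub hlt.le]
            have := Nat.le_ceil H
            linarith
          exact_mod_cast h1
        · obtain ⟨e, rfl⟩ := Nat.exists_eq_add_of_le hlt.le
          rw [Nat.add_sub_cancel_left]
          simp
    have h1 : ((m : ℝ) * n) ^ (β - 1) ≤ (X / 2) ^ (2 * β - 2) := by
      have e1 : (X / 2) ^ (2 * β - 2) = (X / 2 * (X / 2)) ^ (β - 1) := by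
        rw [Real.mul_rpow (by positivity) (by positivity), ← Real.rpow_add (by positivity)]
        congr 1
        ring
      rw [e1]
      refine Real.rpow_le_rpow_of_nonpos (by positivity) ?_ (by linarith)
      exact mul_le_mul hm2 hn2 (by positivity) (by linarith)
    have h2 := E2 h hm1 hn1
    rw [hd3] at h2
    have h3 : (∫ ω, ff ω m * ff ω n ∂ν) ≤ (X / 2) ^ (2 * β - 2) * (Nat.gcd m d : ℝ) ^ (2 - 2 * β) :=
      h2.trans (mul_le_mul_of_nonneg_right h1 (by positivity))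
    have h4 : (∫ ω, ff ω m * ff ω n ∂ν) * k2 X H m n ≤
        (X / 2) ^ (2 * β - 2) * (Nat.gcd m d : ℝ) ^ (2 - 2 * β) * H := by
      refine (mul_le_mul_of_nonneg_right h3 hk0).trans ?_
      exact mul_le_mul_of_nonneg_left hk1 (by positivity)
    have h5 : (Nat.gcd m d : ℝ) ^ (2 - 2 * β) ≤ ∑ d ∈ Icc 1 ⌈H⌉₊, ((if n = m + d then (1 : ℝ) else 0) +
        (if m = n + d then 1 else 0)) * (Nat.gcd m d : ℝ) ^ (2 - 2 * β) := by
      have h6 := single_le_sum (f := fun d : ℕ => ((if n = m + d then (1 : ℝ) else 0) +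
        (if m = n + d then 1 else 0)) * (Nat.gcd m d : ℝ) ^ (2 - 2 * β)) (fun d _ => by positivity) hd1
      refine le_trans ?_ h6
      refine le_mul_of_one_le_left (by positivity) ?_
      rcases hd2 with h7 | h7
      · rw [if_pos h7]
        have : (0 : ℝ) ≤ if m = n + d then 1 else 0 := by positivity
        linarith
      · rw [if_pos h7]
        have : (0 : ℝ) ≤ if n = m + d then 1 else 0 := by positivity
        linarith
    rw [if_neg hmn, zero_add]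
    refine h4.trans ?_
    rw [mul_comm _ H]
    refine mul_le_mul_of_nonneg_left ?_ hH
    exact mul_le_mul_of_nonneg_left h5 (by positivity)

/-- the second moment -/
theorem M2_le {β : ℝ} (hβ1 : β < 1) {Z : ℝ}
    (hZ : ∀ N h : ℕ, ∑ m ∈ Icc 1 N, ∑ d ∈ Icc 1 h, (Nat.gcd m d : ℝ) ^ (2 - 2 * β) ≤ Z * (N * h))
    (h : ∀ s : Finset ℕ, ∫ ω, ∏ k ∈ s, sg ω k ∂ν = ∏ k ∈ s, -(pr k : ℝ) ^ (β - 1))
    {X H : ℝ} (hX : 1 ≤ X) (hH : 0 ≤ H) (hHX : H ≤ X) (K : ℕ) :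
    ∑ m ∈ range K, ∑ n ∈ range K, (∫ ω, ff ω m * ff ω n ∂ν) * k2 X H m n ≤
      H * (K + (X / 2) ^ (2 * β - 2) * (2 * (Z * (K * ⌈H⌉₊)))) := by
  classical
  have hone : ∀ (p : ℕ → Prop) [DecidablePred p], (∀ a b, p a → p b → a = b) →
      ∑ n ∈ range K, (if p n then (1 : ℝ) else 0) ≤ 1 := by
    intro p _ hp
    rw [← sum_filter, sum_const, nsmul_eq_mul, mul_one]
    have : ((range K).filter p).card ≤ 1 := by
      rw [card_le_one]
      intro a ha b hb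
      exact hp a b (mem_filter.1 ha).2 (mem_filter.1 hb).2
    exact_mod_cast this
  have h1 : ∀ m, ∑ n ∈ range K, (∫ ω, ff ω m * ff ω n ∂ν) * k2 X H m n ≤
      H * (1 + (X / 2) ^ (2 * β - 2) * (2 * ∑ d ∈ Icc 1 ⌈H⌉₊, (Nat.gcd m d : ℝ) ^ (2 - 2 * β))) := by
    intro m
    refine (sum_le_sum fun n _ => term_le hβ1 h hX hH hHX m n).trans ?_
    rw [← mul_sum, sum_add_distrib, ← mul_sum, sum_comm]
    refine mul_le_mul_of_nonneg_left ?_ hH
    refine add_le_add (hone _ fun a b ha hb => by rw [ha, hb]) ?_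
    refine mul_le_mul_of_nonneg_left ?_ (by positivity)
    rw [mul_sum]
    refine sum_le_sum fun d _ => ?_
    rw [← sum_mul, sum_add_distrib]
    refine mul_le_mul_of_nonneg_right ?_ (by positivity)
    have a1 := hone (fun n => n = m + d) (fun a b ha hb => by rw [ha, hb])
    have a2 := hone (fun n => m = n + d) (fun a b ha hb => by omega)
    linarith
  have h0 : ∑ n ∈ range K, (∫ ω, ff ω 0 * ff ω n ∂ν) * k2 X H 0 n = 0 :=
    sum_eq_zero fun n _ => by rw [E2_zero 0 n (Or.inl rfl), zero_mul]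
  rw [← sum_erase (range K) h0]
  have hsub : (range K).erase 0 ⊆ Icc 1 K := by
    intro m hm
    rw [mem_erase, mem_range] at hm
    rw [mem_Icc]
    omega
  calc ∑ m ∈ (range K).erase 0, ∑ n ∈ range K, (∫ ω, ff ω m * ff ω n ∂ν) * k2 X H m n
      ≤ ∑ m ∈ (range K).erase 0, H * (1 + (X / 2) ^ (2 * β - 2) * (2 * ∑ d ∈ Icc 1 ⌈H⌉₊,
          (Nat.gcd m d : ℝ) ^ (2 - 2 * β))) := sum_le_sum fun m _ => h1 m
    _ ≤ ∑ m ∈ Icc 1 K, H * (1 + (X / 2) ^ (2 * β - 2) * (2 * ∑ d ∈ Icc 1 ⌈H⌉₊,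
          (Nat.gcd m d : ℝ) ^ (2 - 2 * β))) := by
        refine sum_le_sum_of_subset_of_nonneg hsub fun m _ _ => ?_
        have : 0 ≤ ∑ d ∈ Icc 1 ⌈H⌉₊, (Nat.gcd m d : ℝ) ^ (2 - 2 * β) :=
          sum_nonneg fun d _ => by positivity
        positivity
    _ = H * (K + (X / 2) ^ (2 * β - 2) * (2 * ∑ m ∈ Icc 1 K, ∑ d ∈ Icc 1 ⌈H⌉₊,
          (Nat.gcd m d : ℝ) ^ (2 - 2 * β))) := by
        rw [← mul_sum, sum_add_distrib, ← mul_sum, ← mul_sum, sum_const, Nat.card_Icc, nsmul_eq_mul, mul_one,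
          Nat.add_sub_cancel]
    _ ≤ _ := by
        refine mul_le_mul_of_nonneg_left ?_ hH
        have := mul_le_mul_of_nonneg_left (mul_le_mul_of_nonneg_left (hZ K ⌈H⌉₊) (zero_le_two (α := ℝ)))
          (show 0 ≤ (X / 2) ^ (2 * β - 2) by positivity)
        linarith

theorem sqf_sum {a b : ℕ} (hab : a ≤ b) : ∑ n ∈ Ioc a b, mu n ^ 2 =
    Pool.Agent.Q163.GC.QQ b - Pool.Agent.Q163.GC.QQ a := by
  unfold Pool.Agent.Q163.GC.QQ
  rw [← Finset.sum_Ico_eq_sub _ hab, Finset.sum_Ico_add' (fun n => mu n ^ 2) a b 1]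
  refine sum_congr ?_ fun _ _ => rfl
  ext n
  simp only [mem_Ioc, mem_Ico]
  omega

/-- squarefree numbers in `(5X/4, 7X/4]` -/
theorem sqf_low : ∀ᶠ X : ℝ in atTop, X / 4 ≤ ∑ n ∈ Ioc ⌈5 * X / 4⌉₊ ⌊7 * X / 4⌋₊, mu n ^ 2 := by
  filter_upwards [eventually_ge_atTop (1000000 : ℝ)] with X hX
  have ha1 := Nat.le_ceil (5 * X / 4)
  have ha2 := Nat.ceil_lt_add_one (show 0 ≤ 5 * X / 4 by linarith)
  have hb1 := Nat.lt_floor_add_one (7 * X / 4)
  have hb2 := Nat.floor_le (show 0 ≤ 7 * X / 4 by linarith)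
  obtain ⟨a, ha⟩ : ∃ a : ℕ, a = ⌈5 * X / 4⌉₊ := ⟨_, rfl⟩
  obtain ⟨b, hb⟩ : ∃ b : ℕ, b = ⌊7 * X / 4⌋₊ := ⟨_, rfl⟩
  rw [← ha] at ha1 ha2
  rw [← hb] at hb1 hb2
  rw [← ha, ← hb]
  have hab : a ≤ b := by
    have : (a : ℝ) ≤ b := by linarith
    exact_mod_cast this
  rw [sqf_sum hab]
  have q1 := abs_le.1 (Pool.Agent.Q163.GC.QQ_bound a)
  have q2 := abs_le.1 (Pool.Agent.Q163.GC.QQ_bound b)
  have hs : ∀ c : ℕ, (c : ℝ) ≤ 2 * X → √(c : ℝ) ≤ X / 500 := by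
    intro c hc
    rw [Real.sqrt_le_left (by linarith)]
    nlinarith
  have s1 := hs a (by linarith)
  have s2 := hs b (by linarith)
  have hpi : 3 / 5 ≤ 6 / Real.pi ^ 2 := by
    rw [le_div_iff₀ (by positivity)]
    have h1 := Real.pi_lt_d2
    have h2 := Real.pi_pos
    nlinarith
  have h1 : 3 / 5 * ((b : ℝ) - a) ≤ 6 / Real.pi ^ 2 * ((b : ℝ) - a) :=
    mul_le_mul_of_nonneg_right hpi (by linarith)
  nlinarith

/-- the first moment -/
theorem M1_ge {β : ℝ} (hβ0 : 1 / 2 < β) (hβ1 : β < 1)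
    (h : ∀ s : Finset ℕ, ∫ ω, ∏ k ∈ s, sg ω k ∂ν = ∏ k ∈ s, -(pr k : ℝ) ^ (β - 1))
    {X H : ℝ} (hX : 1 ≤ X) (hH : 0 ≤ H) (hHX : H ≤ X / 2) {K : ℕ} (hK : 2 * X + H ≤ (K : ℝ) - 1)
    (hs : X / 4 ≤ ∑ n ∈ Ioc ⌈5 * X / 4⌉₊ ⌊7 * X / 4⌋₊, mu n ^ 2) :
    X * (H * X ^ (β - 1)) / 8 ≤ ∑ n ∈ range K, (∫ ω, ff ω n ∂ν) * k1 X H n := by
  have hsub : Ioc ⌈5 * X / 4⌉₊ ⌊7 * X / 4⌋₊ ⊆ range K := by
    intro n hn
    rw [mem_Ioc] at hn
    rw [mem_range]
    have h1 : (n : ℝ) ≤ 7 * X / 4 := (Nat.le_floor_iff (by linarith)).1 hn.2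
    have h2 : (n : ℝ) < K := by linarith
    exact_mod_cast h2
  have hnn : ∀ n ∈ range K, 0 ≤ (∫ ω, ff ω n ∂ν) * k1 X H n := by
    intro n _
    rw [E1 h]
    exact mul_nonneg (by positivity) (k1_nonneg X H n)
  refine le_trans ?_ (sum_le_sum_of_subset_of_nonneg hsub fun n hn _ => hnn n hn)
  have hterm : ∀ n ∈ Ioc ⌈5 * X / 4⌉₊ ⌊7 * X / 4⌋₊, mu n ^ 2 * (H * X ^ (β - 1) / 2) ≤
      (∫ ω, ff ω n ∂ν) * k1 X H n := by
    intro n hn
    rw [mem_Ioc] at hn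
    have h1 : (n : ℝ) ≤ 7 * X / 4 := (Nat.le_floor_iff (by linarith)).1 hn.2
    have h2 : 5 * X / 4 ≤ n := (Nat.le_ceil _).trans (by exact_mod_cast hn.1.le)
    rw [E1 h, k1_full hH (by linarith) (by linarith), mul_assoc]
    refine mul_le_mul_of_nonneg_left ?_ (sq_nonneg _)
    have hn0 : (0 : ℝ) < n := by linarith
    have h3 : (2 * X) ^ (β - 1) ≤ (n : ℝ) ^ (β - 1) :=
      Real.rpow_le_rpow_of_nonpos hn0 (by linarith) (by linarith)
    have h4 : (2 : ℝ) ^ (-1 : ℝ) ≤ 2 ^ (β - 1) := Real.rpow_le_rpow_of_exponent_le (by norm_num) (by linarith)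
    rw [Real.mul_rpow (by norm_num) (by linarith)] at h3
    rw [Real.rpow_neg_one] at h4
    have h5 : 0 ≤ X ^ (β - 1) := by positivity
    have h6 : 2⁻¹ * X ^ (β - 1) ≤ (n : ℝ) ^ (β - 1) := (mul_le_mul_of_nonneg_right h4 h5).trans h3
    have h7 := mul_le_mul_of_nonneg_right h6 hH
    linarith
  refine le_trans ?_ (sum_le_sum hterm)
  rw [← sum_mul]
  have h1 : 0 ≤ H * X ^ (β - 1) / 2 := by positivity
  have h2 := mul_le_mul_of_nonneg_right hs h1
  linarith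

theorem V_int {X H : ℝ} (hX : 0 ≤ X) (hH : 0 ≤ H) (T : ℝ) :
    Integrable (fun ω => (volume (GG X H T ω)).toReal) ν := by
  have hK : 2 * X + H ≤ ((⌈2 * X + H⌉₊ + 1 : ℕ) : ℝ) - 1 := by
    have := Nat.le_ceil (2 * X + H)
    push_cast
    linarith
  refine (integrable_const X).mono' (GG_vol_meas hH T hK).aestronglyMeasurable
    (Eventually.of_forall fun ω => ?_)
  rw [Real.norm_eq_abs, abs_of_nonneg ENNReal.toReal_nonneg]
  exact GG_le hX H T ω

/-- the inequality in the mean -/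
theorem mean_le {X H T lam : ℝ} (hX : 0 ≤ X) (hH : 0 ≤ H) (hT : 0 ≤ T) (hl : 0 < lam) {K : ℕ}
    (hK : 2 * X + H ≤ (K : ℝ) - 1) :
    ∑ n ∈ range K, (∫ ω, ff ω n ∂ν) * k1 X H n ≤ T * √H * X +
      (lam / 2 * ∑ m ∈ range K, ∑ n ∈ range K, (∫ ω, ff ω m * ff ω n ∂ν) * k2 X H m n +
      1 / (2 * lam) * ∫ ω, (volume (GG X H T ω)).toReal ∂ν) := by
  have i1 : Integrable (fun ω => ∑ n ∈ range K, ff ω n * k1 X H n) ν :=
    integrable_finsetSum _ fun n _ => (ff_int n).mul_const _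
  have i2 : Integrable (fun ω => ∑ m ∈ range K, ∑ n ∈ range K, (ff ω m * ff ω n) * k2 X H m n) ν :=
    integrable_finsetSum _ fun m _ => integrable_finsetSum _ fun n _ => (ff2_int m n).mul_const _
  have i3 : Integrable (fun ω => (volume (GG X H T ω)).toReal) ν := V_int hX hH T
  have h1 := integral_mono i1 ((integrable_const (T * √H * X)).add ((i2.const_mul (lam / 2)).add
    (i3.const_mul (1 / (2 * lam))))) fun ω => one_ω hX hH hT hl hK ω
  have e1 : ∫ ω, ∑ n ∈ range K, ff ω n * k1 X H n ∂ν = ∑ n ∈ range K, (∫ ω, ff ω n ∂ν) * k1 X H n := by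
    rw [integral_finsetSum _ fun n _ => (ff_int n).mul_const _]
    exact sum_congr rfl fun n _ => integral_mul_const _ _
  have e2 : ∫ ω, ∑ m ∈ range K, ∑ n ∈ range K, (ff ω m * ff ω n) * k2 X H m n ∂ν =
      ∑ m ∈ range K, ∑ n ∈ range K, (∫ ω, ff ω m * ff ω n ∂ν) * k2 X H m n := by
    rw [integral_finsetSum _ fun m _ => integrable_finsetSum _ fun n _ => (ff2_int m n).mul_const _]
    refine sum_congr rfl fun m _ => ?_
    rw [integral_finsetSum _ fun n _ => (ff2_int m n).mul_const _]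
    exact sum_congr rfl fun n _ => integral_mul_const _ _
  rw [e1] at h1
  refine h1.trans (le_of_eq ?_)
  have e3 := integral_add (integrable_const (μ := ν) (T * √H * X)) ((i2.const_mul (lam / 2)).add
    (i3.const_mul (1 / (2 * lam))))
  have e4 := integral_add (i2.const_mul (lam / 2)) (i3.const_mul (1 / (2 * lam)))
  rw [integral_const_mul, integral_const_mul, e2] at e4
  rw [integral_const, probReal_univ, one_smul] at e3
  refine e3.trans ?_
  rw [← e4]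
  rfl

end Pool.Agent.Q38.L2
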